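import Pool.Agent.N419.HQ.Stm

/-!
The core step: from group orbits to the values of the system at integers.
-/

set_option autoImplicit false

namespace Pool.Agent.N419.HQ

open Polynomial Matrix

/-- `(M V v)_p`, `V` the generic matrix -/
noncomputable def pv {F : Type} [Field F] {n r : ℕ} (M : Matrix (Fin (n + 1)) (Fin r) F)
    (v : Fin r → F) (p : Fin (n + 1)) : MvPolynomial (Fin r × Fin r) F[X] :=
  ∑ i, ∑ j, MvPolynomial.C (C (M p i)) * MvPolynomial.X (i, j) * MvPolynomial.C (C (v j))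

/-- `f(X, M V v)` -/
noncomputable def sb {F : Type} [Field F] {n r : ℕ} (M : Matrix (Fin (n + 1)) (Fin r) F)
    (v : Fin r → F) : MvPolynomial (Fin (n + 1)) F[X] →+* MvPolynomial (Fin r × Fin r) F[X] :=
  MvPolynomial.eval₂Hom MvPolynomial.C (pv M v)

theorem core_mulVec {F E : Type} [Field F] [Field E] {n r : ℕ} (φ : F →+* E)
    (M : Matrix (Fin (n + 1)) (Fin r) F) (v : Fin r → F) (W : Matrix (Fin r) (Fin r) E)
    (p : Fin (n + 1)) :
    ((M.map φ).mulVec (W.mulVec fun j => φ (v j))) p =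
      ∑ i, ∑ j, φ (M p i) * W i j * φ (v j) := by
  simp only [Matrix.mulVec, dotProduct, Matrix.map_apply, Finset.mul_sum, mul_assoc]

theorem core_ev_pv {F : Type} [Field F] {n r : ℕ} (M : Matrix (Fin (n + 1)) (Fin r) F)
    (v : Fin r → F) (p : Fin (n + 1)) (a : F) (W : Matrix (Fin r) (Fin r) F) :
    ev a W (pv M v p) = (M.mulVec (W.mulVec v)) p := by
  have h := core_mulVec (RingHom.id F) M v W p
  simp only [RingHom.id_apply] at h
  have h2 : M.map (RingHom.id F) = M := by ext; simp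
  rw [show (M.map (RingHom.id F)) = M from h2] at h
  rw [h]
  simp [ev, pv]

theorem core_ev_sb {F : Type} [Field F] {n r : ℕ} (M : Matrix (Fin (n + 1)) (Fin r) F)
    (v : Fin r → F) (a : F) (W : Matrix (Fin r) (Fin r) F)
    (f : MvPolynomial (Fin (n + 1)) F[X]) :
    ev a W (sb M v f) = MvPolynomial.eval₂ (evalRingHom a) (M.mulVec (W.mulVec v)) f := by
  have h : (ev a W).comp (sb M v) =
      MvPolynomial.eval₂Hom (evalRingHom a) (M.mulVec (W.mulVec v)) := by
    apply MvPolynomial.ringHom_ext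
    · intro p
      simp [ev, sb]
    · intro p
      simp only [RingHom.comp_apply, sb, MvPolynomial.eval₂Hom_X']
      exact core_ev_pv M v p a W
  exact congrArg (fun φ => φ f) h

theorem core_rmul_sb {F : Type} [Field F] {n r : ℕ} (M : Matrix (Fin (n + 1)) (Fin r) F)
    (v : Fin r → F) (h : Matrix (Fin r) (Fin r) F) (f : MvPolynomial (Fin (n + 1)) F[X]) :
    rmul h (sb M v f) = sb M (h.mulVec v) f := by
  have h : (rmul h).comp (sb M v) = sb M (h.mulVec v) := by
    apply MvPolynomial.ringHom_ext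
    · intro p
      simp [rmul, sb]
    · intro p
      simp only [RingHom.comp_apply, sb, MvPolynomial.eval₂Hom_X', pv, map_sum, map_mul]
      simp only [rmul, MvPolynomial.eval₂Hom_C, MvPolynomial.eval₂Hom_X', Matrix.mulVec,
        dotProduct, map_sum, map_mul, Finset.mul_sum, Finset.sum_mul]
      refine Finset.sum_congr rfl fun i _ => ?_
      rw [Finset.sum_comm]
      refine Finset.sum_congr rfl fun j _ => Finset.sum_congr rfl fun k _ => ?_
      ring
  exact congrArg (fun φ => φ f) h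

/-- the matrix with the entries `y` -/
def vm {E : Type} {r : ℕ} (y : Fin r × Fin r → E) : Matrix (Fin r) (Fin r) E :=
  Matrix.of fun i j => y (i, j)

/-- the determinant of the generic matrix -/
noncomputable def gd (F : Type) [Field F] (r : ℕ) : MvPolynomial (Fin r × Fin r) F[X] :=
  (vm (fun p : Fin r × Fin r => (MvPolynomial.X p : MvPolynomial (Fin r × Fin r) F[X]))).det

theorem core_ev_gd {F : Type} [Field F] {r : ℕ} (a : F) (W : Matrix (Fin r) (Fin r) F) :
    ev a W (gd F r) = W.det := by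
  rw [gd, RingHom.map_det]
  congr 1
  ext i j
  simp [ev, vm]

theorem core_aeval_gd {E : Type} [Field E] [Algebra ℂ[X] E] {r : ℕ} (y : Fin r × Fin r → E) :
    MvPolynomial.aeval y (gd ℂ r) = (vm y).det := by
  have h1 : MvPolynomial.aeval y (gd ℂ r) =
    (MvPolynomial.aeval y : MvPolynomial (Fin r × Fin r) ℂ[X] →ₐ[ℂ[X]] E).toRingHom (gd ℂ r) := rfl
  rw [h1, gd, RingHom.map_det]
  congr 1
  ext i j
  simp [vm]

theorem core_aeval_sb {E : Type} [Field E] [Algebra ℂ[X] E] {n r : ℕ}
    (M : Matrix (Fin (n + 1)) (Fin r) ℂ) (v : Fin r → ℂ) (y : Fin r × Fin r → E)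
    (f : MvPolynomial (Fin (n + 1)) ℂ[X]) :
    MvPolynomial.aeval y (sb M v f) = MvPolynomial.aeval
      ((M.map ((algebraMap ℂ[X] E).comp C)).mulVec
        ((vm y).mulVec fun j => ((algebraMap ℂ[X] E).comp C) (v j))) f := by
  have h : (MvPolynomial.aeval y : MvPolynomial (Fin r × Fin r) ℂ[X] →ₐ[ℂ[X]] E).toRingHom.comp
      (sb M v) = (MvPolynomial.aeval ((M.map ((algebraMap ℂ[X] E).comp C)).mulVec
        ((vm y).mulVec fun j => ((algebraMap ℂ[X] E).comp C) (v j))) :
        MvPolynomial (Fin (n + 1)) ℂ[X] →ₐ[ℂ[X]] E).toRingHom := by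
    apply MvPolynomial.ringHom_ext
    · intro p
      simp [sb]
    · intro p
      have h1 : (sb M v) (MvPolynomial.X p) = pv M v p := by
        simp only [sb, MvPolynomial.eval₂Hom_X']
      rw [RingHom.comp_apply, h1]
      simp only [AlgHom.toRingHom_eq_coe, RingHom.coe_coe, MvPolynomial.aeval_X]
      rw [core_mulVec ((algebraMap ℂ[X] E).comp C) M v (vm y) p]
      simp [pv, vm]
  exact congrArg (fun φ => φ f) h

theorem core_smul {E : Type} [Field E] [Algebra ℂ[X] E] {n d : ℕ}
    (f : MvPolynomial (Fin (n + 1)) ℂ[X]) (hf : f.IsHomogeneous d) (s : E) (c : Fin (n + 1) → E) :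
    MvPolynomial.aeval (s • c) f = s ^ d * MvPolynomial.aeval c f := by
  rw [MvPolynomial.aeval_def, MvPolynomial.aeval_def, MvPolynomial.eval₂_eq',
    MvPolynomial.eval₂_eq', Finset.mul_sum]
  refine Finset.sum_congr rfl fun e he => ?_
  have h1 : ∑ i, e i = d := by
    have := hf (MvPolynomial.mem_support_iff.mp he)
    rw [Finsupp.weight_apply, Finsupp.sum_fintype] at this
    · simpa using this
    · simp
  simp only [Pi.smul_apply, smul_eq_mul, mul_pow, Finset.prod_mul_distrib,
    Finset.prod_pow_eq_pow_sum, h1]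
  ring

theorem core_map {n : ℕ} (F : MvPolynomial (Fin (n + 1)) ℂ) (a : ℂ) (x : Fin (n + 1) → ℂ) :
    MvPolynomial.eval₂ (evalRingHom a) x (MvPolynomial.map C F) = MvPolynomial.eval x F := by
  rw [MvPolynomial.eval₂_map]
  have : (evalRingHom a).comp C = RingHom.id ℂ := by ext z; simp
  rw [this]
  rfl

theorem t_core (h3 : S_null) (h4 : S_spec) (h5 : S_embed) (h8 : S_grp) : S_core := by
  classical
  intro n r B FF G hO A hA M v ⟨N0, hN0⟩
  obtain ⟨H, hH1, hH2⟩ := h8 ℂ r A hA
  obtain ⟨E, iE, iA, hinj, halg, y, hy1, hy2⟩ := h3 (Fin r × Fin r) (evI A) (gd ℂ r) (by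
    rintro h hh k ⟨N, hN⟩
    have hfin : {m : ℕ | h.eval (m : ℂ) = 0}.Finite := by
      have := (h.roots.toFinset.finite_toSet).preimage (f := fun m : ℕ => (m : ℂ))
        (Nat.cast_injective.injOn)
      refine this.subset fun m hm => ?_
      simp only [Set.mem_preimage, Finset.mem_coe, Multiset.mem_toFinset]
      exact (mem_roots hh).2 hm
    obtain ⟨m, hm1, hm2⟩ := (hfin.infinite_compl).exists_gt N
    have h1 := hN m hm2.le
    rw [map_mul, map_pow, core_ev_gd] at h1
    rcases mul_eq_zero.mp h1 with h2 | h2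
    · apply hm1
      simpa [ev] using h2
    · exact pow_ne_zero k (det_sys_ne A hA m) h2)
  let ψ : ℂ →+* E := (algebraMap ℂ[X] E).comp C
  let V : Matrix (Fin r) (Fin r) E := vm y
  have hV : V.det ≠ 0 := by
    intro h0
    apply hy2
    rw [core_aeval_gd]
    exact h0
  -- the orbit
  let iC : Algebra ℂ E := ψ.toAlgebra
  obtain ⟨emb⟩ := h5 E hinj halg
  have key : ∀ h ∈ H, (M.map ψ * V).mulVec
      ((((Matrix.GeneralLinearGroup.map (n := Fin r) ψ h : GL (Fin r) E) :
        Matrix (Fin r) (Fin r) E)).mulVec fun j => ψ (v j)) =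
      (M.map ψ).mulVec (V.mulVec fun j => ψ ((h : Matrix (Fin r) (Fin r) ℂ).mulVec v j)) := by
    intro h _
    rw [← Matrix.mulVec_mulVec]
    congr 2
    ext j
    simp [Matrix.mulVec, dotProduct, Matrix.GeneralLinearGroup.map_apply]
  have hIF : ∀ h ∈ H, ∀ F ∈ FF, sb M ((h : Matrix (Fin r) (Fin r) ℂ).mulVec v)
      (MvPolynomial.map C F) ∈ evI A := by
    intro h hh F hF
    rw [← core_rmul_sb]
    apply hH1 h hh
    refine ⟨N0, fun m hm => ?_⟩
    rw [core_ev_sb, core_map]
    exact hN0 m hm F hF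
  have haev : ∀ (F : MvPolynomial (Fin (n + 1)) ℂ) (h : GL (Fin r) ℂ), h ∈ H →
      MvPolynomial.aeval ((M.map ψ * V).mulVec
      ((((Matrix.GeneralLinearGroup.map (n := Fin r) ψ h : GL (Fin r) E) :
        Matrix (Fin r) (Fin r) E)).mulVec fun j => ψ (v j))) F =
      MvPolynomial.aeval y (sb M ((h : Matrix (Fin r) (Fin r) ℂ).mulVec v)
        (MvPolynomial.map C F)) := by
    intro F h hh
    rw [key h hh, core_aeval_sb, MvPolynomial.aeval_def, MvPolynomial.aeval_def,
      MvPolynomial.eval₂_map]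
    rfl
  obtain ⟨c, hc⟩ := hO E emb H
    ((Matrix.GeneralLinearGroup.map (n := Fin r) ψ).comp H.subtype) (M.map ψ * V)
    (fun j => ψ (v j)) (by
      rintro ⟨h, hh⟩ F hF
      simp only [MonoidHom.comp_apply, Subgroup.subtype_apply]
      rw [haev F h hh]
      exact hy1 _ (hIF h hh F hF))
  -- specialisation
  obtain ⟨N, hN⟩ := h4 E hinj halg (Option (Fin r × Fin r))
    (fun o => o.elim (V.det)⁻¹ y)
  refine ⟨E, iE, iA, hinj, halg, c, N, fun m hm => ?_⟩
  obtain ⟨w, hw⟩ := hN m hm
  let W : Matrix (Fin r) (Fin r) ℂ := vm (w ∘ some)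
  have hW : ∀ f : MvPolynomial (Fin r × Fin r) ℂ[X], MvPolynomial.aeval y f = 0 →
      ev (m : ℂ) W f = 0 := by
    intro f hf
    have h1 := hw (MvPolynomial.rename some f) (by
      rw [MvPolynomial.aeval_rename]
      exact hf)
    rw [MvPolynomial.eval₂_rename] at h1
    exact h1
  have hdet : W.det ≠ 0 := by
    have h1 := hw (MvPolynomial.X none * MvPolynomial.rename some (gd ℂ r) - 1) (by
      have h2 : MvPolynomial.aeval y (gd ℂ r) = V.det := core_aeval_gd y
      rw [map_sub, map_mul, MvPolynomial.aeval_rename, MvPolynomial.aeval_X, map_one]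
      have h3 : ((fun o : Option (Fin r × Fin r) => o.elim (V.det)⁻¹ y) ∘ some) = y := by
        ext p; rfl
      rw [h3, h2]
      simp only [Option.elim]
      rw [inv_mul_cancel₀ hV, sub_self])
    intro h0
    rw [MvPolynomial.eval₂_sub, MvPolynomial.eval₂_mul, MvPolynomial.eval₂_X,
      MvPolynomial.eval₂_one, MvPolynomial.eval₂_rename] at h1
    have h4 : MvPolynomial.eval₂ (evalRingHom (m : ℂ)) (w ∘ some) (gd ℂ r) = W.det :=
      core_ev_gd (m : ℂ) W
    rw [h4, h0] at h1
    simp at h1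
  obtain ⟨h, hh, hU⟩ := hH2 m (Matrix.GeneralLinearGroup.mkOfDetNeZero W hdet) (by
    intro f hf
    exact hW f (hy1 f hf))
  have hx : M.mulVec ((sys A m).mulVec v) =
      M.mulVec (W.mulVec ((h : Matrix (Fin r) (Fin r) ℂ).mulVec v)) := by
    rw [hU, ← Matrix.mulVec_mulVec]
    rfl
  rcases hc ⟨h, hh⟩ with h1 | ⟨i, s, h1⟩
  · left
    simp only [MonoidHom.comp_apply, Subgroup.subtype_apply] at h1
    rw [haev G h hh] at h1
    have h2 := hW _ h1
    rw [core_ev_sb, core_map] at h2
    rw [hx]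
    exact h2
  · right
    refine ⟨i, fun e f hf hfc => ?_⟩
    simp only [MonoidHom.comp_apply, Subgroup.subtype_apply] at h1
    rw [key h hh] at h1
    have h2 : MvPolynomial.aeval y (sb M ((h : Matrix (Fin r) (Fin r) ℂ).mulVec v) f) = 0 := by
      rw [core_aeval_sb]
      change MvPolynomial.aeval ((M.map ψ).mulVec (V.mulVec fun j =>
        ψ ((h : Matrix (Fin r) (Fin r) ℂ).mulVec v j))) f = 0
      rw [h1, core_smul f hf, hfc, mul_zero]
    have h3 := hW _ h2
    rw [core_ev_sb] at h3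
    rw [hx]
    exact h3

end Pool.Agent.N419.HQ
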