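import Pool.Agent.TH717.GO.UE

/-!
Rational curves over `ℂ` and over number fields.
-/

set_option autoImplicit false

namespace Pool.Agent.N419.HQ

open Pool.Agent.TH717.GO

/-- no nonconstant curve over extensions of `k` which are number fields -/
theorem noCur_of_noRatC {k : Type} [Field k] [NumberField k] {n : ℕ} (σ : k →+* ℂ)
    (FF : Set (MvPolynomial (Fin (n + 1)) k)) (h : NoRatC σ FF) (K : Type) [Field K]
    [NumberField K] [Algebra k K] (q : Fin (n + 1) → Polynomial K)
    (hq : ∀ F ∈ FF, MvPolynomial.aeval q F = 0) (i j : Fin (n + 1)) (a b : K) :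
    (q i).eval a * (q j).eval b = (q j).eval a * (q i).eval b := by
  have : Module.Finite k K := Module.Finite.of_restrictScalars_finite ℚ k K
  let _ : Algebra k ℂ := σ.toAlgebra
  let τ : K →ₐ[k] ℂ := IsAlgClosed.lift
  have hτinj : Function.Injective τ.toRingHom := τ.toRingHom.injective
  apply hτinj
  have hcomp : τ.toRingHom.comp (algebraMap k K) = σ := τ.comp_algebraMap
  have hev : ∀ i (a : K), ((q i).map τ.toRingHom).eval (τ.toRingHom a) =
      τ.toRingHom ((q i).eval a) := by
    intro i a
    rw [Polynomial.eval_map, Polynomial.eval₂_at_apply]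
  have h3 := h (fun i => (q i).map τ.toRingHom) (by
    intro F hFF
    have h4 := congrArg (Polynomial.mapRingHom τ.toRingHom) (hq F hFF)
    rw [map_zero, MvPolynomial.aeval_def, MvPolynomial.hom_eval₂] at h4
    have h5 : (Polynomial.mapRingHom τ.toRingHom).comp (algebraMap k (Polynomial K)) =
        Polynomial.C.comp σ := by
      rw [← hcomp]
      refine RingHom.ext fun x => ?_
      show Polynomial.map τ.toRingHom (algebraMap k (Polynomial K) x) = _
      rw [Polynomial.algebraMap_apply, Polynomial.map_C]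
      rfl
    rw [h5] at h4
    exact h4) i j (τ.toRingHom a) (τ.toRingHom b)
  rw [hev, hev, hev, hev, ← map_mul, ← map_mul] at h3
  exact h3

/-- a nonconstant rational curve over `ℂ` gives one over a number field -/
theorem exists_curK {k : Type} [Field k] [NumberField k] {n : ℕ} (σ : k →+* ℂ)
    (FF : Set (MvPolynomial (Fin (n + 1)) k)) (h : ¬ NoRatC σ FF) :
    ∃ (K : Type) (_ : Field K) (_ : NumberField K) (_ : Algebra k K)
      (q : Fin (n + 1) → Polynomial K), (∀ F ∈ FF, MvPolynomial.aeval q F = 0) ∧
      ∃ i j, ∃ a b : K, (q i).eval a * (q j).eval b ≠ (q j).eval a * (q i).eval b := by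
  classical
  unfold NoRatC at h
  push Not at h
  obtain ⟨q, hq, i, j, a, b, hab⟩ := h
  let _ : Algebra k ℂ := σ.toAlgebra
  let sh : Polynomial ℂ →+* Polynomial ℂ :=
    Polynomial.compRingHom (Polynomial.X + Polynomial.C (b - 1))
  let p : Fin (n + 1) → Polynomial ℂ := fun i => sh (q i)
  have hpe : ∀ i (t : ℂ), (p i).eval t = (q i).eval (t + (b - 1)) := by
    intro i t
    show ((q i).comp _).eval t = _
    rw [Polynomial.eval_comp, Polynomial.eval_add, Polynomial.eval_X, Polynomial.eval_C]
  have hp : ∀ F ∈ FF, MvPolynomial.aeval p F = 0 := by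
    intro F hF
    have h1 := congrArg sh (hq F hF)
    rw [map_zero, MvPolynomial.hom_eval₂] at h1
    rw [MvPolynomial.aeval_def]
    have h2 : sh.comp (Polynomial.C.comp σ) = algebraMap k (Polynomial ℂ) := by
      refine RingHom.ext fun x => ?_
      show (Polynomial.C (σ x)).comp _ = _
      rw [Polynomial.C_comp, Polynomial.algebraMap_apply]
      rfl
    rw [← h2]
    exact h1
  set N : ℕ := Finset.univ.sup (fun i => (p i).natDegree) + 1 with hN
  have hNc : ∀ i m, N ≤ m → (p i).coeff m = 0 := by
    intro i m hm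
    apply Polynomial.coeff_eq_zero_of_natDegree_lt
    have := Finset.le_sup (f := fun i => (p i).natDegree) (Finset.mem_univ i)
    omega
  obtain ⟨K, iK, iN, iAK, w, h1, h2, -⟩ := Pool.Agent.TH409.SH.specialise k ℂ p FF hp N hNc
    ⟨i, j, fun heq => hab (by
      have h4 := congrArg (Polynomial.eval (a - (b - 1))) heq
      rw [Polynomial.eval_mul, Polynomial.eval_mul, Polynomial.eval_C, Polynomial.eval_C, hpe, hpe,
        hpe, hpe] at h4
      simpa using h4)⟩ 1 (by rw [map_one]; exact one_ne_zero)
  obtain ⟨i1, i2, a', b', hab'⟩ := Pool.Agent.TH409.SH.nonconst_of _ h2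
  exact ⟨K, iK, iN, iAK, _, h1, i1, i2, a', b', hab'⟩

end Pool.Agent.N419.HQ
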