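import Mathlib

/-!
Difference systems `U(m + 1) = A(m) U(m)` over a polynomial ring: definitions and basic facts.
-/

set_option autoImplicit false

namespace Pool.Agent.N419.HQ

open Polynomial Matrix

/-- the values `ε (τ^m f)`, `m = 0, 1, 2, …`, of an element `f` of a ring `R` with an endomorphism
`τ` and a homomorphism `ε` to a field -/
def val {R F : Type} [CommRing R] [Field F] (τ : R →+* R) (ε : R →+* F) (m : ℕ) (f : R) : F :=
  ε ((⇑τ)^[m] f)

/-- the matrices `U(0) = 1`, `U(m + 1) = A(m) U(m)` -/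
def sys {F : Type} [Field F] {r : ℕ} (A : Matrix (Fin r) (Fin r) F[X]) :
    ℕ → Matrix (Fin r) (Fin r) F
  | 0 => 1
  | m + 1 => A.map (fun p => p.eval (m : F)) * sys A m

/-- the value of a polynomial in the entries of a matrix, with coefficients in `F[X]`, at the matrix
`W` and `X = a` -/
noncomputable def ev {F : Type} [Field F] {r : ℕ} (a : F) (W : Matrix (Fin r) (Fin r) F) :
    MvPolynomial (Fin r × Fin r) F[X] →+* F :=
  MvPolynomial.eval₂Hom (evalRingHom a) fun p => W p.1 p.2

/-- `f(X, V) ↦ f(X + 1, A(X) V)` -/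
noncomputable def shift {F : Type} [Field F] {r : ℕ} (A : Matrix (Fin r) (Fin r) F[X]) :
    MvPolynomial (Fin r × Fin r) F[X] →+* MvPolynomial (Fin r × Fin r) F[X] :=
  MvPolynomial.eval₂Hom ((MvPolynomial.C).comp (compRingHom (X + 1)))
    fun p => ∑ k, MvPolynomial.C (A p.1 k) * MvPolynomial.X (k, p.2)

/-- `f(X, V) ↦ f(X, V h)` -/
noncomputable def rmul {F : Type} [Field F] {r : ℕ} (h : Matrix (Fin r) (Fin r) F) :
    MvPolynomial (Fin r × Fin r) F[X] →+* MvPolynomial (Fin r × Fin r) F[X] :=
  MvPolynomial.eval₂Hom MvPolynomial.C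
    fun p => ∑ k, MvPolynomial.X (p.1, k) * MvPolynomial.C (C (h k p.2))

variable {F : Type} [Field F] {r : ℕ}

theorem ev_shift (A : Matrix (Fin r) (Fin r) F[X]) (a : F) (W : Matrix (Fin r) (Fin r) F)
    (f : MvPolynomial (Fin r × Fin r) F[X]) :
    ev a W (shift A f) = ev (a + 1) (A.map (fun p => p.eval a) * W) f := by
  have h : (ev a W).comp (shift A) = ev (a + 1) (A.map (fun p => p.eval a) * W) := by
    apply MvPolynomial.ringHom_ext
    · intro p
      simp [ev, shift, eval_comp]
    · rintro ⟨i, j⟩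
      simp [ev, shift, Matrix.mul_apply]
  exact congrArg (fun φ => φ f) h

theorem ev_rmul (h : Matrix (Fin r) (Fin r) F) (a : F) (W : Matrix (Fin r) (Fin r) F)
    (f : MvPolynomial (Fin r × Fin r) F[X]) :
    ev a W (rmul h f) = ev a (W * h) f := by
  have h : (ev a W).comp (rmul h) = ev a (W * h) := by
    apply MvPolynomial.ringHom_ext
    · intro p
      simp [ev, rmul]
    · rintro ⟨i, j⟩
      simp [ev, rmul, Matrix.mul_apply]
  exact congrArg (fun φ => φ f) h

/-- the values of `f` along the system -/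
theorem ev_sys (A : Matrix (Fin r) (Fin r) F[X]) (m j : ℕ)
    (f : MvPolynomial (Fin r × Fin r) F[X]) :
    ev (m : F) (sys A m) ((⇑(shift A))^[j] f) = ev ((m + j : ℕ) : F) (sys A (m + j)) f := by
  induction j generalizing f with
  | zero => simp
  | succ j ih =>
    rw [Function.iterate_succ_apply, ih, ev_shift, ← add_assoc]
    simp only [sys]
    push_cast
    rfl

theorem val_sys (A : Matrix (Fin r) (Fin r) F[X]) (m : ℕ)
    (f : MvPolynomial (Fin r × Fin r) F[X]) :
    val (shift A) (ev 0 1) m f = ev (m : F) (sys A m) f := by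
  have h := ev_sys A 0 m f
  simp only [Nat.cast_zero, zero_add] at h
  exact h

theorem det_sys (A : Matrix (Fin r) (Fin r) F[X]) (m : ℕ) :
    (sys A (m + 1)).det = A.det.eval (m : F) * (sys A m).det := by
  have h : (A.map (fun p => p.eval (m : F))).det = A.det.eval (m : F) := by
    have := (RingHom.map_det (evalRingHom (m : F)) A)
    simpa using this.symm
  rw [sys, Matrix.det_mul, h]

theorem det_sys_ne (A : Matrix (Fin r) (Fin r) F[X]) (hA : ∀ m : ℕ, A.det.eval (m : F) ≠ 0)
    (m : ℕ) : (sys A m).det ≠ 0 := by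
  induction m with
  | zero => simp [sys]
  | succ m ih => rw [det_sys]; exact mul_ne_zero (hA m) ih

end Pool.Agent.N419.HQ
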