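import Pool.Agent.N419.HQ.Stm

/-!
Project HQ, T2: zero sets of positive upper Banach density contain full progressions (helper402).
-/

set_option autoImplicit false

namespace Pool.Agent.N419.HQ

open Set

/-! ### positive upper Banach density -/

theorem Dens_mono {S S' : Set ℕ} (h : S ⊆ S') (hS : PosDens S) : PosDens S' := by
  obtain ⟨δ, hδ, H⟩ := hS
  refine ⟨δ, hδ, fun L => ?_⟩
  obtain ⟨a, l, hl, h1⟩ := H L
  refine ⟨a, l, hl, h1.trans ?_⟩
  have : (S ∩ Ico a (a + l)).ncard ≤ (S' ∩ Ico a (a + l)).ncard :=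
    ncard_le_ncard (inter_subset_inter_left _ h) ((finite_Ico a (a + l)).inter_of_right S')
  exact_mod_cast this

theorem Dens_not {S : Set ℕ} (h : ¬ PosDens S) {δ : ℝ} (hδ : 0 < δ) :
    ∃ L : ℕ, ∀ a l : ℕ, L ≤ l → ((S ∩ Ico a (a + l)).ncard : ℝ) < δ * l := by
  unfold PosDens at h
  push Not at h
  obtain ⟨L, hL⟩ := h δ hδ
  exact ⟨L, fun a l hl => hL a l hl⟩

theorem Dens_union {S S' : Set ℕ} (h : PosDens (S ∪ S')) : PosDens S ∨ PosDens S' := by
  by_contra hc
  push Not at hc
  obtain ⟨δ, hδ, H⟩ := h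
  obtain ⟨L1, h1⟩ := Dens_not hc.1 (half_pos hδ)
  obtain ⟨L2, h2⟩ := Dens_not hc.2 (half_pos hδ)
  obtain ⟨a, l, hl, h3⟩ := H (max L1 L2)
  have h4 := h1 a l ((le_max_left _ _).trans hl)
  have h5 := h2 a l ((le_max_right _ _).trans hl)
  have h6 : ((S ∪ S') ∩ Ico a (a + l)).ncard ≤ (S ∩ Ico a (a + l)).ncard + (S' ∩ Ico a (a + l)).ncard := by
    rw [union_inter_distrib_right]
    exact ncard_union_le _ _
  have h7 : (((S ∪ S') ∩ Ico a (a + l)).ncard : ℝ) ≤
      (S ∩ Ico a (a + l)).ncard + (S' ∩ Ico a (a + l)).ncard := by exact_mod_cast h6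
  linarith

theorem Dens_empty : ¬ PosDens ∅ := by
  rintro ⟨δ, hδ, H⟩
  obtain ⟨a, l, hl, h⟩ := H 1
  rw [empty_inter, ncard_empty] at h
  have : (0:ℝ) < l := by exact_mod_cast hl
  have : 0 < δ * l := by positivity
  simp at h
  linarith

theorem Dens_nonempty {S : Set ℕ} (h : PosDens S) : S.Nonempty := by
  rw [nonempty_iff_ne_empty]
  rintro rfl
  exact Dens_empty h

theorem Dens_biUnion {ι : Type} (s : Finset ι) (S : ι → Set ℕ) (h : ∀ i ∈ s, ¬ PosDens (S i)) :
    ¬ PosDens (⋃ i ∈ s, S i) := by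
  classical
  induction s using Finset.induction_on with
  | empty => simpa using Dens_empty
  | insert i s hi ih =>
    rw [Finset.set_biUnion_insert]
    intro h1
    rcases Dens_union h1 with h2 | h2
    · exact h i (Finset.mem_insert_self i s) h2
    · exact ih (fun j hj => h j (Finset.mem_insert_of_mem hj)) h2

theorem Dens_shift {S : Set ℕ} (h : ℕ) (hS : PosDens S) : PosDens ((fun m => m + h) '' S) := by
  obtain ⟨δ, hδ, H⟩ := hS
  refine ⟨δ, hδ, fun L => ?_⟩
  obtain ⟨a, l, hl, h1⟩ := H L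
  refine ⟨a + h, l, hl, h1.trans (le_of_eq ?_)⟩
  have e : (fun m => m + h) '' S ∩ Ico (a + h) (a + h + l) = (fun m => m + h) '' (S ∩ Ico a (a + l)) := by
    ext m
    simp only [mem_inter_iff, mem_image, mem_Ico]
    constructor
    · rintro ⟨⟨x, hx, rfl⟩, h2, h3⟩
      exact ⟨x, ⟨hx, by omega, by omega⟩, rfl⟩
    · rintro ⟨x, ⟨hx, h2, h3⟩, rfl⟩
      exact ⟨⟨x, hx, rfl⟩, by omega, by omega⟩
  rw [e, ncard_image_of_injective _ (fun x y hxy => by simpa using hxy)]

/-- syndetic sets -/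
theorem Dens_syn {S : Set ℕ} {k N : ℕ} (hk : 1 ≤ k) (h : ∀ a ≥ N, ∃ m ∈ S, a ≤ m ∧ m < a + k) :
    PosDens S := by
  have hk0 : (0:ℝ) < k := by exact_mod_cast hk
  refine ⟨1 / k, by positivity, fun L => ⟨N, k * L, Nat.le_mul_of_pos_left L hk, ?_⟩⟩
  have h1 : ∀ j : ℕ, ∃ m ∈ S, N + k * j ≤ m ∧ m < N + k * j + k := fun j => h _ (by omega)
  choose g hgS hg1 hg2 using h1
  have hinj : Function.Injective g := by
    intro i j hij
    by_contra hne
    rcases Nat.lt_or_gt_of_ne hne with h3 | h3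
    · have := hg2 i
      have := hg1 j
      have : k * i + k ≤ k * j := by nlinarith
      omega
    · have := hg2 j
      have := hg1 i
      have : k * j + k ≤ k * i := by nlinarith
      omega
  have hsub : (↑((Finset.range L).image g) : Set ℕ) ⊆ S ∩ Ico N (N + k * L) := by
    intro m hm
    rw [Finset.mem_coe, Finset.mem_image] at hm
    obtain ⟨j, hj, rfl⟩ := hm
    rw [Finset.mem_range] at hj
    refine ⟨hgS j, ?_, ?_⟩
    · have := hg1 j
      omega
    · have h4 := hg2 j
      have : k * j + k ≤ k * L := by nlinarith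
      show g j < N + k * L
      omega
  have h5 : L ≤ (S ∩ Ico N (N + k * L)).ncard := by
    have := ncard_le_ncard hsub ((finite_Ico N (N + k * L)).inter_of_right S)
    rw [ncard_coe_finset, Finset.card_image_of_injective _ hinj, Finset.card_range] at this
    exact this
  have h6 : 1 / (k:ℝ) * ((k * L : ℕ) : ℝ) = L := by
    push_cast
    field_simp
  rw [h6]
  exact_mod_cast h5

theorem Dens_class {T : ℕ} (hT : 1 ≤ T) (a N : ℕ) : PosDens {m : ℕ | m % T = a % T ∧ N ≤ m} := by
  refine Dens_syn (k := T) (N := N) hT fun b hb => ?_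
  refine ⟨b + (a % T + (T - b % T)) % T, ⟨?_, by omega⟩, by omega, ?_⟩
  · have h0 := Nat.mod_lt b hT
    have h1 : (b + (a % T + (T - b % T)) % T) % T = (b + (a % T + (T - b % T))) % T := by
      rw [Nat.add_mod, Nat.mod_mod, ← Nat.add_mod]
    have h2 : b + (a % T + (T - b % T)) = a % T + T * (b / T + 1) := by
      have := Nat.div_add_mod b T
      rw [Nat.mul_add, Nat.mul_one]
      omega
    rw [h1, h2, Nat.add_mul_mod_self_left, Nat.mod_mod]
  · have := Nat.mod_lt (a % T + (T - b % T)) hT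
    omega

theorem Dens_run (H : S_run) {R F : Type} [CommRing R] [IsNoetherianRing R] [Field F] (τ : R →+* R)
    (ε : R →+* F) (f : R) (hf : ¬ ∃ N : ℕ, ∀ m ≥ N, val τ ε m f = 0) :
    PosDens {m : ℕ | val τ ε m f ≠ 0} := by
  obtain ⟨k, hk⟩ := H R F τ ε f
  have h1 : ∀ a : ℕ, ∃ i < k, val τ ε (a + i) f ≠ 0 := by
    intro a
    by_contra hc
    push Not at hc
    exact hf ⟨a, hk a hc⟩
  have hk1 : 1 ≤ k := by
    obtain ⟨i, hi, -⟩ := h1 0
    omega
  refine Dens_syn (k := k) (N := 0) hk1 fun a _ => ?_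
  obtain ⟨i, hi, h2⟩ := h1 a
  exact ⟨a + i, h2, by omega, by omega⟩

/-- a set of positive density meets a translate of itself in positive density -/
theorem Dens_recur {E : Set ℕ} (hE : PosDens E) : ∃ h : ℕ, 1 ≤ h ∧ PosDens {m | m ∈ E ∧ m + h ∈ E} := by
  by_contra hc
  push Not at hc
  obtain ⟨δ, hδ, H⟩ := hE
  obtain ⟨K, hK⟩ := exists_nat_gt (4 / δ)
  set U : Set ℕ := ⋃ h ∈ Finset.Icc 1 K, {m | m ∈ E ∧ m + h ∈ E} with hU
  have hUn : ¬ PosDens U := Dens_biUnion _ _ fun h hh => hc h (Finset.mem_Icc.1 hh).1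
  obtain ⟨L1, h1⟩ := Dens_not hUn (half_pos hδ)
  obtain ⟨a, l, hl, h2⟩ := H (max L1 K)
  have hl1 : L1 ≤ l := (le_max_left _ _).trans hl
  have hl2 : K ≤ l := (le_max_right _ _).trans hl
  have h3 := h1 a l hl1
  have h4 : ((E \ U) ∩ Ico a (a + l)).ncard ≤ l / (K + 1) + 1 := by
    have hfin : ((E \ U) ∩ Ico a (a + l)).Finite := (finite_Ico a (a + l)).inter_of_right _
    have hinj : Set.InjOn (fun m => (m - a) / (K + 1)) ((E \ U) ∩ Ico a (a + l)) := by
      have key : ∀ x ∈ (E \ U) ∩ Ico a (a + l), ∀ y ∈ (E \ U) ∩ Ico a (a + l), x < y →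
          (x - a) / (K + 1) ≠ (y - a) / (K + 1) := by
        intro x hx y hy hxy he
        have hgap : K < y - x := by
          by_contra hle
          push Not at hle
          apply hx.1.2
          rw [hU]
          simp only [mem_iUnion]
          exact ⟨y - x, Finset.mem_Icc.2 ⟨by omega, hle⟩, hx.1.1, by
            rw [Nat.add_sub_cancel' hxy.le]; exact hy.1.1⟩
        have hxa : a ≤ x := hx.2.1
        have e1 := Nat.div_add_mod (x - a) (K + 1)
        have e2 := Nat.div_add_mod (y - a) (K + 1)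
        have e3 := Nat.mod_lt (y - a) (Nat.succ_pos K)
        rw [he] at e1
        simp only [Nat.succ_eq_add_one] at e3
        omega
      intro x hx y hy he
      rcases lt_trichotomy x y with h | h | h
      · exact absurd he (key x hx y hy h)
      · exact h
      · exact absurd he.symm (key y hy x hx h)
    have himg : (fun m => (m - a) / (K + 1)) '' ((E \ U) ∩ Ico a (a + l)) ⊆
        ↑(Finset.range (l / (K + 1) + 1)) := by
      rintro _ ⟨m, hm, rfl⟩
      rw [Finset.coe_range, mem_Iio]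
      have : m - a ≤ l := by
        have := hm.2.2
        omega
      exact Nat.lt_succ_of_le (Nat.div_le_div_right this)
    have := ncard_le_ncard himg (Finset.finite_toSet _)
    rw [hinj.ncard_image, ncard_coe_finset, Finset.card_range] at this
    exact this
  have h5 : (E ∩ Ico a (a + l)).ncard ≤ (U ∩ Ico a (a + l)).ncard + ((E \ U) ∩ Ico a (a + l)).ncard := by
    have hsub : E ∩ Ico a (a + l) ⊆ (U ∩ Ico a (a + l)) ∪ ((E \ U) ∩ Ico a (a + l)) := by
      intro m hm
      by_cases hmU : m ∈ U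
      · exact Or.inl ⟨hmU, hm.2⟩
      · exact Or.inr ⟨⟨hm.1, hmU⟩, hm.2⟩
    exact (ncard_le_ncard hsub (((finite_Ico a (a + l)).inter_of_right U).union
      ((finite_Ico a (a + l)).inter_of_right _))).trans (ncard_union_le _ _)
  have h6 : ((E ∩ Ico a (a + l)).ncard : ℝ) ≤ (U ∩ Ico a (a + l)).ncard + ((l / (K + 1) : ℕ) + 1) := by
    have := h5.trans (Nat.add_le_add_left h4 _)
    exact_mod_cast this
  have h7 : ((l / (K + 1) : ℕ) : ℝ) ≤ l / ((K:ℝ) + 1) := by
    have := @Nat.cast_div_le ℝ _ _ _ l (K + 1)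
    push_cast at this
    exact this
  have hKl : (K:ℝ) ≤ l := by exact_mod_cast hl2
  have hKp : (0:ℝ) ≤ K := Nat.cast_nonneg K
  have hK4 : 4 < δ * K := by
    rw [div_lt_iff₀ hδ] at hK
    linarith
  have h8 : (l:ℝ) / ((K:ℝ) + 1) ≤ δ / 4 * l := by
    rw [div_le_iff₀ (by positivity)]
    have : (0:ℝ) ≤ l := Nat.cast_nonneg l
    nlinarith
  have h9 : 1 < δ / 4 * l := by nlinarith
  linarith

/-! ### the ideals of the eventually vanishing elements -/

section

variable {R F : Type} [CommRing R] [Field F] (τ : R →+* R) (ε : R →+* F)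

theorem Dens_val_add (m : ℕ) (f g : R) : val τ ε m (f + g) = val τ ε m f + val τ ε m g := by
  unfold val
  rw [iterate_map_add, map_add]

theorem Dens_val_mul (m : ℕ) (f g : R) : val τ ε m (f * g) = val τ ε m f * val τ ε m g := by
  unfold val
  rw [iterate_map_mul, map_mul]

theorem Dens_val_zero (m : ℕ) : val τ ε m 0 = 0 := by
  unfold val
  rw [iterate_map_zero, map_zero]

theorem Dens_val_iter (m h : ℕ) (f : R) : val τ ε m ((⇑τ)^[h] f) = val τ ε (m + h) f := by
  unfold val
  rw [Function.iterate_add_apply]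

/-- the elements which vanish at all large integers congruent to `a` modulo `T` -/
def Dens_J (T a : ℕ) : Ideal R where
  carrier := {f | ∃ N : ℕ, ∀ m ≥ N, m % T = a % T → val τ ε m f = 0}
  zero_mem' := ⟨0, fun _ _ _ => Dens_val_zero τ ε _⟩
  add_mem' := by
    rintro f g ⟨N, hN⟩ ⟨N', hN'⟩
    exact ⟨max N N', fun m hm h => by
      rw [Dens_val_add, hN m (le_trans (le_max_left _ _) hm) h, hN' m (le_trans (le_max_right _ _) hm) h,
        add_zero]⟩
  smul_mem' := by
    rintro c f ⟨N, hN⟩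
    exact ⟨N, fun m hm h => by rw [smul_eq_mul, Dens_val_mul, hN m hm h, mul_zero]⟩

/-- the elements which vanish on `E` -/
def Dens_I (E : Set ℕ) : Ideal R where
  carrier := {f | ∀ m ∈ E, val τ ε m f = 0}
  zero_mem' := fun _ _ => Dens_val_zero τ ε _
  add_mem' := by
    intro f g hf hg m hm
    rw [Dens_val_add, hf m hm, hg m hm, add_zero]
  smul_mem' := by
    intro c f hf m hm
    rw [smul_eq_mul, Dens_val_mul, hf m hm, mul_zero]

theorem Dens_J_congr {T a b : ℕ} (h : a % T = b % T) : Dens_J τ ε T a = Dens_J τ ε T b := by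
  ext f
  show (∃ N : ℕ, ∀ m ≥ N, m % T = a % T → val τ ε m f = 0) ↔
    ∃ N : ℕ, ∀ m ≥ N, m % T = b % T → val τ ε m f = 0
  rw [h]

theorem Dens_J_refine {T T' a a' : ℕ} (hT : T ∣ T') (ha : a' % T = a % T) :
    Dens_J τ ε T a ≤ Dens_J τ ε T' a' := by
  rintro f ⟨N, hN⟩
  refine ⟨N, fun m hm h => hN m hm ?_⟩
  have h1 : m % T = a' % T := by
    have := congrArg (fun x => x % T) h
    simpa [Nat.mod_mod_of_dvd _ hT] using this
  rw [h1, ha]

theorem Dens_J_shift (T a j : ℕ) (f : R) :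
    f ∈ Dens_J τ ε T (a + j) ↔ (⇑τ)^[j] f ∈ Dens_J τ ε T a := by
  constructor
  · rintro ⟨N, hN⟩
    refine ⟨N, fun m hm h => ?_⟩
    rw [Dens_val_iter]
    exact hN (m + j) (by omega) (Nat.ModEq.add_right j h)
  · rintro ⟨N, hN⟩
    refine ⟨N + j, fun m hm h => ?_⟩
    obtain ⟨m', rfl⟩ : ∃ m', m = m' + j := ⟨m - j, by omega⟩
    have h2 := hN m' (by omega) (Nat.ModEq.add_right_cancel' j h)
    rwa [Dens_val_iter] at h2

/-- stable under refinement -/
def Dens_Stable (T a : ℕ) : Prop := ∀ T' : ℕ, 1 ≤ T' → T ∣ T' → ∀ a' : ℕ, a' % T = a % T →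
  Dens_J τ ε T' a' = Dens_J τ ε T a

theorem Dens_Stable_refine {T T1 a : ℕ} (h : Dens_Stable τ ε T a) (hT1 : 1 ≤ T1) (hT : T ∣ T1) :
    Dens_Stable τ ε T1 a := by
  intro T' hT' hd a' ha'
  have h1 : a' % T = a % T := by
    have := congrArg (fun x => x % T) ha'
    simpa [Nat.mod_mod_of_dvd _ hT] using this
  rw [h T' hT' (hT.trans hd) a' h1, h T1 hT1 hT a rfl]

theorem Dens_good [IsNoetherianRing R] : ∀ (I : Ideal R) (T a : ℕ), 1 ≤ T → Dens_J τ ε T a = I →
    ∃ T1 : ℕ, 1 ≤ T1 ∧ T ∣ T1 ∧ ∀ a' : ℕ, a' % T = a % T → Dens_Stable τ ε T1 a' := by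
  intro I
  induction I using WellFoundedGT.induction with
  | _ I ih =>
    intro T a hT hI
    by_cases hs : Dens_Stable τ ε T a
    · refine ⟨T, hT, dvd_refl T, fun a' ha' => ?_⟩
      intro T' hT' hd a'' ha''
      rw [hs T' hT' hd a'' (ha''.trans ha')]
      exact Dens_J_congr τ ε ha'.symm
    · unfold Dens_Stable at hs
      push Not at hs
      obtain ⟨T', hT', hd, a', ha', hne⟩ := hs
      have hlt : Dens_J τ ε T a < Dens_J τ ε T' a' :=
        lt_of_le_of_ne (Dens_J_refine τ ε hd ha') (Ne.symm hne)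
      have hcls : ∀ b : ℕ, b % T = a % T → ∃ j : ℕ, b % T' = (a' + j * T) % T' := by
        intro b hb
        have h1 : a' ≡ b [MOD T] := ha'.trans hb.symm
        obtain ⟨j, hj⟩ : ∃ j : ℕ, b + a' * T' = a' + j * T := by
          have h2 : a' ≤ b + a' * T' := by nlinarith
          have h3 : T ∣ (b + a' * T') - a' := by
            rw [← Nat.modEq_iff_dvd' h2]
            obtain ⟨c, rfl⟩ := hd
            have : b + a' * (T * c) ≡ b [MOD T] := by
              rw [show a' * (T * c) = T * (a' * c) by ring]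
              exact Nat.add_mul_mod_self_left _ _ _
            exact h1.trans this.symm
          obtain ⟨j, hj⟩ := h3
          exact ⟨j, by rw [mul_comm j T]; omega⟩
        refine ⟨j, ?_⟩
        rw [← hj, Nat.add_mul_mod_self_right]
      have hbig : ∀ b : ℕ, b % T = a % T → I < Dens_J τ ε T' b := by
        intro b hb
        have hle : Dens_J τ ε T a ≤ Dens_J τ ε T' b := Dens_J_refine τ ε hd hb
        rw [← hI]
        refine lt_of_le_of_ne hle fun heq => ?_
        obtain ⟨j, hj⟩ := hcls b hb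
        -- go around to `a'`
        apply hlt.ne
        ext f
        have e1 : Dens_J τ ε T' a' = Dens_J τ ε T' (b + j * (T' - 1) * T) := by
          apply Dens_J_congr
          have h3 : (b + j * (T' - 1) * T) % T' = (a' + j * T + j * (T' - 1) * T) % T' :=
            Nat.ModEq.add_right _ hj
          rw [h3]
          have h4 : a' + j * T + j * (T' - 1) * T = a' + T' * (j * T) := by
            obtain ⟨t, rfl⟩ : ∃ t, T' = t + 1 := ⟨T' - 1, by omega⟩
            rw [Nat.add_sub_cancel]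
            ring
          rw [h4, Nat.add_mul_mod_self_left]
        have e2 : Dens_J τ ε T a = Dens_J τ ε T (a + j * (T' - 1) * T) := by
          apply Dens_J_congr
          rw [Nat.add_mul_mod_self_right]
        rw [e1, e2, Dens_J_shift, Dens_J_shift, heq]
      have hgood : ∀ b : ℕ, ∃ T1 : ℕ, b % T = a % T → (1 ≤ T1 ∧ T' ∣ T1 ∧
          ∀ c : ℕ, c % T' = b % T' → Dens_Stable τ ε T1 c) := by
        intro b
        by_cases hb : b % T = a % T
        · obtain ⟨T1, h1, h2, h3⟩ := ih _ (hbig b hb) T' b hT' rfl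
          exact ⟨T1, fun _ => ⟨h1, h2, h3⟩⟩
        · exact ⟨0, fun h => absurd h hb⟩
      choose g hg using hgood
      refine ⟨T' * ∏ b ∈ (Finset.range T').filter (fun b => b % T = a % T), g b, ?_,
        hd.trans (dvd_mul_right _ _), fun c hc => ?_⟩
      · apply Nat.mul_pos hT'
        apply Finset.prod_pos
        intro b hb
        exact (hg b (Finset.mem_filter.1 hb).2).1
      · have hcb : (c % T') % T = a % T := by rw [Nat.mod_mod_of_dvd _ hd, hc]
        have hmem : c % T' ∈ (Finset.range T').filter (fun b => b % T = a % T) :=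
          Finset.mem_filter.2 ⟨Finset.mem_range.2 (Nat.mod_lt _ hT'), hcb⟩
        obtain ⟨h1, h2, h3⟩ := hg _ hcb
        refine Dens_Stable_refine τ ε (h3 c (Nat.mod_mod _ _).symm) ?_
          (dvd_mul_of_dvd_right (Finset.dvd_prod_of_mem _ hmem) _)
        apply Nat.mul_pos hT'
        apply Finset.prod_pos
        intro b hb
        exact (hg b (Finset.mem_filter.1 hb).2).1

end

/-- **T2** -/
theorem t_dens : S_dens := by
  intro R F _ _ _ τ ε c
  obtain ⟨T, hT, -, hst⟩ := Dens_good τ ε _ 1 0 le_rfl rfl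
  refine ⟨T, hT, fun a => ?_⟩
  have hsta : Dens_Stable τ ε T a := hst a (by rw [Nat.mod_one, Nat.mod_one])
  by_cases hZ : PosDens {m : ℕ | m % T = a % T ∧ ∀ f ∈ c, val τ ε m f = 0}
  · left
    -- a maximal ideal among the `I(E)`
    set 𝒮 : Set (Ideal R) := {I | ∃ E : Set ℕ, E ⊆ {m : ℕ | m % T = a % T ∧ ∀ f ∈ c, val τ ε m f = 0} ∧
      PosDens E ∧ Dens_I τ ε E = I} with h𝒮
    have hne : 𝒮.Nonempty := ⟨_, _, Subset.rfl, hZ, rfl⟩
    obtain ⟨P, ⟨E, hEZ, hE, hEP⟩, hmax⟩ := set_has_maximal_iff_noetherian.2 (inferInstance : IsNoetherian R R) 𝒮 hne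
    obtain ⟨h, hh, hE'⟩ := Dens_recur hE
    have hmono : ∀ E' : Set ℕ, E' ⊆ E → PosDens E' → Dens_I τ ε E' = P := by
      intro E' hsub hd
      have hle : P ≤ Dens_I τ ε E' := by
        rw [← hEP]
        intro f hf m hm
        exact hf m (hsub hm)
      by_contra hne'
      exact hmax _ ⟨E', hsub.trans hEZ, hd, rfl⟩ (lt_of_le_of_ne hle (Ne.symm hne'))
    have h1 : Dens_I τ ε {m | m ∈ E ∧ m + h ∈ E} = P := hmono _ (fun m hm => hm.1) hE'
    have h2 : Dens_I τ ε ((fun m => m + h) '' {m | m ∈ E ∧ m + h ∈ E}) = P :=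
      hmono _ (by rintro _ ⟨m, hm, rfl⟩; exact hm.2) (Dens_shift h hE')
    have h3 : ∀ f ∈ P, (⇑τ)^[h] f ∈ P := by
      intro f hf
      rw [← h2] at hf
      rw [← h1]
      intro m hm
      rw [Dens_val_iter]
      exact hf _ ⟨m, hm, rfl⟩
    have h4 : ∀ j : ℕ, ∀ f ∈ P, (⇑τ)^[h * j] f ∈ P := by
      intro j
      induction j with
      | zero => intro f hf; simpa using hf
      | succ j ih =>
        intro f hf
        rw [Nat.mul_succ, Function.iterate_add_apply]
        exact ih _ (h3 f hf)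
    obtain ⟨m0, hm0⟩ := Dens_nonempty hE
    have hm0T : m0 % T = a % T := (hEZ hm0).1
    have hcP : c ≤ P := by
      rw [← hEP]
      intro f hf m hm
      exact (hEZ hm).2 f hf
    have hcJ : c ≤ Dens_J τ ε T a := by
      rw [← hsta (T * h) (Nat.mul_pos hT hh) (dvd_mul_right _ _) m0 hm0T]
      intro f hf
      refine ⟨m0, fun m hm hmod => ?_⟩
      obtain ⟨k, hk⟩ : ∃ k, m = m0 + h * (T * k) := by
        have : T * h ∣ m - m0 := (Nat.modEq_iff_dvd' hm).1 (Eq.symm hmod)
        obtain ⟨k, hk⟩ := this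
        exact ⟨k, by rw [show h * (T * k) = T * h * k by ring]; omega⟩
      have h5 := h4 (T * k) f (hcP hf)
      rw [← hEP] at h5
      have h6 := h5 m0 hm0
      rw [Dens_val_iter, ← hk] at h6
      exact h6
    -- finitely many generators
    obtain ⟨s, hs⟩ := (isNoetherianRing_iff_ideal_fg R).1 inferInstance c
    have h7 : ∃ N : ℕ, ∀ f ∈ s, ∀ m ≥ N, m % T = a % T → val τ ε m f = 0 := by
      have h8 : ∀ f : R, ∃ N : ℕ, f ∈ s → ∀ m ≥ N, m % T = a % T → val τ ε m f = 0 := by
        intro f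
        by_cases hf : f ∈ s
        · obtain ⟨N, hN⟩ := hcJ (show f ∈ c by rw [← hs]; exact Ideal.subset_span hf)
          exact ⟨N, fun _ => hN⟩
        · exact ⟨0, fun h => absurd h hf⟩
      choose N hN using h8
      refine ⟨s.sup N, fun f hf m hm h => hN f hf m ?_ h⟩
      exact (Finset.le_sup (f := N) hf).trans hm
    obtain ⟨N, hN⟩ := h7
    refine ⟨N, fun m hm hmod => ?_⟩
    have h9 : c ≤ Dens_I τ ε {m} := by
      rw [← hs, Ideal.span_le]
      intro f hf m' hm'
      rw [mem_singleton_iff] at hm'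
      subst hm'
      exact hN f hf m' hm hmod
    intro f hf
    exact h9 hf m rfl
  · exact Or.inr hZ

end Pool.Agent.N419.HQ
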