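import Pool.Agent.N419.HQ.Stm

/-!
The stabiliser group of the ideal of a difference system (T8).
-/

set_option autoImplicit false

namespace Pool.Agent.N419.HQ

open Polynomial Matrix

variable {F : Type} [Field F] {r : ℕ}

theorem grp_rmul_mul (g h : Matrix (Fin r) (Fin r) F)
    (f : MvPolynomial (Fin r × Fin r) F[X]) : rmul (g * h) f = rmul g (rmul h f) := by
  have e : rmul (g * h) = (rmul g).comp (rmul h) := by
    apply MvPolynomial.ringHom_ext
    · intro p
      simp [rmul]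
    · rintro ⟨i, j⟩
      simp only [rmul, MvPolynomial.coe_eval₂Hom, MvPolynomial.eval₂_X, RingHom.coe_comp,
        Function.comp_apply, MvPolynomial.eval₂_sum, MvPolynomial.eval₂_mul, MvPolynomial.eval₂_C,
        Matrix.mul_apply, map_sum, map_mul]
      simp only [Finset.mul_sum, Finset.sum_mul]
      rw [Finset.sum_comm]
      refine Finset.sum_congr rfl fun k _ => Finset.sum_congr rfl fun l _ => ?_
      ring
  exact congrArg (fun φ => φ f) e

theorem grp_rmul_one (f : MvPolynomial (Fin r × Fin r) F[X]) : rmul 1 f = f := by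
  have e : rmul (1 : Matrix (Fin r) (Fin r) F) = RingHom.id _ := by
    apply MvPolynomial.ringHom_ext
    · intro p
      simp [rmul]
    · rintro ⟨i, j⟩
      simp only [rmul, MvPolynomial.coe_eval₂Hom, MvPolynomial.eval₂_X, RingHom.id_apply]
      rw [Finset.sum_eq_single j]
      · simp
      · intro k _ hk
        rw [Matrix.one_apply_ne hk]
        simp
      · intro hk; exact absurd (Finset.mem_univ _) hk
  exact congrArg (fun φ => φ f) e

theorem grp_shift_mem (A : Matrix (Fin r) (Fin r) F[X]) {f : MvPolynomial (Fin r × Fin r) F[X]}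
    (hf : f ∈ evI A) : shift A f ∈ evI A := by
  obtain ⟨N, hN⟩ := hf
  refine ⟨N, fun m hm => ?_⟩
  rw [ev_shift]
  have h1 := hN (m + 1) (by omega)
  simp only [sys] at h1
  push_cast at h1
  exact h1

theorem grp_iter_mem (A : Matrix (Fin r) (Fin r) F[X]) (j : ℕ)
    {f : MvPolynomial (Fin r × Fin r) F[X]} (hf : f ∈ evI A) :
    (⇑(shift A))^[j] f ∈ evI A := by
  induction j with
  | zero => exact hf
  | succ j ih =>
    rw [Function.iterate_succ_apply']
    exact grp_shift_mem A ih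

theorem grp_ev_iter (A : Matrix (Fin r) (Fin r) F[X]) (V : Matrix (Fin r) (Fin r) F) (m j : ℕ)
    (f : MvPolynomial (Fin r × Fin r) F[X]) :
    ev (m : F) (sys A m * V) ((⇑(shift A))^[j] f) =
      ev ((m + j : ℕ) : F) (sys A (m + j) * V) f := by
  induction j generalizing f with
  | zero => simp
  | succ j ih =>
    rw [Function.iterate_succ_apply, ih, ev_shift, ← add_assoc]
    simp only [sys]
    push_cast
    rw [Matrix.mul_assoc]

/-- the substitution given by an invertible matrix -/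
noncomputable def grpR (g : GL (Fin r) F) :
    MvPolynomial (Fin r × Fin r) F[X] →+* MvPolynomial (Fin r × Fin r) F[X] :=
  rmul (g : Matrix (Fin r) (Fin r) F)

theorem grpR_apply (g : GL (Fin r) F) (f : MvPolynomial (Fin r × Fin r) F[X]) :
    grpR g f = rmul (g : Matrix (Fin r) (Fin r) F) f := rfl

theorem grpR_mul (g h : GL (Fin r) F) (f : MvPolynomial (Fin r × Fin r) F[X]) :
    grpR (g * h) f = grpR g (grpR h f) := by
  rw [grpR_apply, grpR_apply, grpR_apply, Units.val_mul, grp_rmul_mul]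

theorem grpR_one (f : MvPolynomial (Fin r × Fin r) F[X]) : grpR 1 f = f := by
  rw [grpR_apply, Units.val_one, grp_rmul_one]

theorem grp_inv (I : Ideal (MvPolynomial (Fin r × Fin r) F[X])) (h : GL (Fin r) F)
    (hh : ∀ f ∈ I, grpR h f ∈ I) (f : MvPolynomial (Fin r × Fin r) F[X]) (hf : f ∈ I) :
    grpR h⁻¹ f ∈ I := by
  have hmono : Monotone fun k : ℕ => I.comap (grpR (h ^ k)) := by
    apply monotone_nat_of_le_succ
    intro k x hx
    rw [Ideal.mem_comap] at hx ⊢
    rw [pow_succ', grpR_mul]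
    exact hh _ hx
  obtain ⟨n, hn⟩ := monotone_stabilizes_iff_noetherian.2
    (inferInstance : IsNoetherianRing (MvPolynomial (Fin r × Fin r) F[X])) ⟨_, hmono⟩
  have h1 : ∀ x, x ∈ I.comap (grpR (h ^ (n + 1))) → x ∈ I.comap (grpR (h ^ n)) := by
    intro x hx
    have h2 : I.comap (grpR (h ^ n)) = I.comap (grpR (h ^ (n + 1))) := hn (n + 1) (Nat.le_succ n)
    rw [h2]
    exact hx
  have h3 := h1 (grpR (h ^ n)⁻¹ (grpR h⁻¹ f)) (by
    rw [Ideal.mem_comap, ← grpR_mul, ← grpR_mul]
    have e : h ^ (n + 1) * (h ^ n)⁻¹ * h⁻¹ = 1 := by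
      rw [pow_succ', mul_inv_cancel_right, mul_inv_cancel]
    rw [e, grpR_one]
    exact hf)
  rw [Ideal.mem_comap, ← grpR_mul, mul_inv_cancel, grpR_one] at h3
  exact h3

/-- the stabiliser -/
noncomputable def grpG (I : Ideal (MvPolynomial (Fin r × Fin r) F[X])) :
    Subgroup (GL (Fin r) F) where
  carrier := {h | ∀ f ∈ I, grpR h f ∈ I}
  mul_mem' := by
    intro g h hg hh f hf
    rw [grpR_mul]
    exact hg _ (hh f hf)
  one_mem' := by
    intro f hf
    rw [grpR_one]
    exact hf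
  inv_mem' := by
    intro h hh f hf
    exact grp_inv I h hh f hf

theorem mem_grpG {I : Ideal (MvPolynomial (Fin r × Fin r) F[X])} {h : GL (Fin r) F} :
    h ∈ grpG I ↔ ∀ f ∈ I, grpR h f ∈ I := Iff.rfl

/-- T8 -/
theorem t_grp : S_grp := by
  intro F _ r A hA
  refine ⟨grpG (evI A), fun h hh f hf => mem_grpG.1 hh f hf, fun m W hW => ?_⟩
  obtain ⟨U, hU⟩ : ∃ U : GL (Fin r) F, (U : Matrix (Fin r) (Fin r) F) = sys A m :=
    ⟨Matrix.GeneralLinearGroup.mkOfDetNeZero _ (det_sys_ne A hA m), rfl⟩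
  have e1 : U * (W⁻¹ * U)⁻¹ = W := by
    rw [_root_.mul_inv_rev, inv_inv, ← mul_assoc, mul_inv_cancel, one_mul]
  have hinv : (W⁻¹ * U)⁻¹ ∈ grpG (evI A) := by
    rw [mem_grpG]
    intro f hf
    refine ⟨m, fun m' hm' => ?_⟩
    obtain ⟨j, rfl⟩ : ∃ j, m' = m + j := ⟨m' - m, by omega⟩
    rw [grpR_apply, ev_rmul, ← grp_ev_iter]
    have h1 : sys A m * (((W⁻¹ * U)⁻¹ : GL (Fin r) F) : Matrix (Fin r) (Fin r) F) =
        (W : Matrix (Fin r) (Fin r) F) := by
      rw [← hU, ← Units.val_mul, e1]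
    rw [h1]
    exact hW _ (grp_iter_mem A j hf)
  refine ⟨W⁻¹ * U, ?_, ?_⟩
  · have := (grpG (evI A)).inv_mem hinv
    rwa [inv_inv] at this
  · rw [← hU, ← Units.val_mul, mul_inv_cancel_left]

end Pool.Agent.N419.HQ
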