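import Pool.Agent.N419.HQ.Stm
import Pool.Agent.TH716.RK.HpNf

/-!
Descent of relations to a subfield (T9) and Hilbert irreducibility on long runs of consecutive
integers (T10). Written by helper891.
-/

set_option autoImplicit false

namespace Pool.Agent.N419.HQ

open Polynomial

/-! ### T9 -/

section Desc

variable {K : Type} [Field K] (τ : K →+* ℂ) (φ : ℂ →+ K)

/-- the functional on the coefficients -/
noncomputable def hit_pm (p : ℂ[X]) : K[X] := p.sum fun i a => monomial i (φ a)

/-- the functional on the coefficients of the coefficients -/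
noncomputable def hit_pm2 (p : ℂ[X][X]) : K[X][X] := p.sum fun j a => monomial j (hit_pm φ a)

theorem hit_pm_coeff (p : ℂ[X]) (i : ℕ) : (hit_pm φ p).coeff i = φ (p.coeff i) := by
  classical
  unfold hit_pm Polynomial.sum
  rw [finsetSum_coeff]
  simp only [coeff_monomial]
  rw [Finset.sum_ite_eq']
  split_ifs with h
  · rfl
  · rw [notMem_support_iff.mp h, map_zero]

theorem hit_pm2_coeff (p : ℂ[X][X]) (j : ℕ) : (hit_pm2 φ p).coeff j = hit_pm φ (p.coeff j) := by
  classical
  unfold hit_pm2 Polynomial.sum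
  rw [finsetSum_coeff]
  simp only [coeff_monomial]
  rw [Finset.sum_ite_eq']
  split_ifs with h
  · rfl
  · rw [notMem_support_iff.mp h]
    simp [hit_pm]

theorem hit_pm_eval (hφ : ∀ (x : K) (a : ℂ), φ (a * τ x) = φ a * x) (p : ℂ[X]) (x : K) :
    (hit_pm φ p).eval x = φ (p.eval (τ x)) := by
  unfold hit_pm Polynomial.sum
  rw [eval_finsetSum, eval_eq_sum, Polynomial.sum, map_sum]
  refine Finset.sum_congr rfl fun i _ => ?_
  rw [eval_monomial, ← map_pow, hφ]

theorem hit_pm2_eval (hφ : ∀ (x : K) (a : ℂ), φ (a * τ x) = φ a * x) (p : ℂ[X][X]) (x y : K) :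
    ((hit_pm2 φ p).map (evalRingHom x)).eval y = φ ((p.map (evalRingHom (τ x))).eval (τ y)) := by
  rw [eval_map, eval_map]
  unfold hit_pm2
  rw [Polynomial.sum, eval₂_finsetSum, eval₂_eq_sum, Polynomial.sum, map_sum]
  refine Finset.sum_congr rfl fun i _ => ?_
  rw [eval₂_monomial, ← map_pow, hφ]
  congr 1
  exact hit_pm_eval τ φ hφ _ x

end Desc

theorem t_desc : S_desc := by
  intro K _ τ S y ⟨P, hP, h⟩
  let _ := τ.toAlgebra
  obtain ⟨j, hj⟩ : ∃ j, P.coeff j ≠ 0 := by
    by_contra hc
    push Not at hc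
    exact hP (Polynomial.ext fun j => by rw [hc j, coeff_zero])
  obtain ⟨i, hi⟩ : ∃ i, (P.coeff j).coeff i ≠ 0 := by
    by_contra hc
    push Not at hc
    exact hj (Polynomial.ext fun j => by rw [hc j, coeff_zero])
  obtain ⟨ψ, hψ⟩ : ∃ ψ : Module.Dual K ℂ, ψ ((P.coeff j).coeff i) ≠ 0 := by
    by_contra hc
    push Not at hc
    exact hi ((Module.forall_dual_apply_eq_zero_iff K _).mp hc)
  have hφ : ∀ (x : K) (a : ℂ), ψ.toAddMonoidHom (a * τ x) = ψ.toAddMonoidHom a * x := by
    intro x a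
    have : a * τ x = x • a := by
      rw [Algebra.smul_def, mul_comm]
      rfl
    rw [this]
    show ψ (x • a) = ψ a * x
    rw [map_smul, smul_eq_mul, mul_comm]
  refine ⟨hit_pm2 ψ.toAddMonoidHom P, ?_, fun m hm => ?_⟩
  · intro h0
    have h1 := hit_pm2_coeff ψ.toAddMonoidHom P j
    have h2 := hit_pm_coeff ψ.toAddMonoidHom (P.coeff j) i
    rw [← h1, h0] at h2
    simp only [coeff_zero] at h2
    exact hψ h2.symm
  · rw [hit_pm2_eval τ _ hφ, map_natCast, h m hm, map_zero]

/-! ### T10 -/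

theorem hit_eval {K : Type} [Field K] (p : K[X][X]) (x y : K) :
    (p.map (evalRingHom x)).eval y = p.evalEval x y :=
  map_evalRingHom_eval x y p

theorem hit_shift {K : Type} [Field K] (q : K[X][X]) (c x y : K) :
    (q.map (compRingHom (X + C c))).evalEval x y = q.evalEval (x + c) y := by
  rw [← hit_eval, ← hit_eval, Polynomial.map_map]
  congr 2
  apply Polynomial.ringHom_ext
  · intro a
    simp
  · simp

theorem t_hit : S_hit := by
  intro K _ _ ι _ P hP
  classical
  cases nonempty_fintype ι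
  set Q : K[X][X] := X * ∏ i, P i with hQ
  have hp0 : ∏ i, P i ≠ 0 := Finset.prod_ne_zero_iff.mpr fun i _ => hP i
  have hQ0 : Q ≠ 0 := mul_ne_zero X_ne_zero hp0
  have hdeg : 1 ≤ Q.natDegree := by
    rw [hQ, natDegree_mul X_ne_zero hp0, natDegree_X]
    omega
  set R : K[X][X] := Q.integralNormalization with hR
  have hRm : R.Monic := monic_integralNormalization hQ0
  obtain ⟨q, hq1, hq2, hq3⟩ := exists_prod_multiset_X_sub_C_mul R
  have hqm : q.Monic := by
    have h1 : ((R.roots.map fun a => X - C a).prod).Monic :=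
      monic_multiset_prod_of_monic _ _ fun a _ => monic_X_sub_C a
    exact h1.of_mul_monic_left (by rw [hq1]; exact hRm)
  have hqr : ∀ g : K[X], q.eval g ≠ 0 := by
    intro g hg
    have h1 : g ∈ q.roots := (mem_roots hqm.ne_zero).mpr hg
    rw [hq3] at h1
    simp at h1
  set a : K[X] := Q.leadingCoeff with ha
  have ha0 : a ≠ 0 := leadingCoeff_ne_zero.mpr hQ0
  obtain ⟨N, hN⟩ : ∃ N : ℕ, ∀ m ≥ N, a.eval (m : K) ≠ 0 := by
    have hf : {m : ℕ | a.eval (m : K) = 0}.Finite := by
      have h1 : {x : K | a.eval x = 0}.Finite := by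
        refine (a.roots.toFinset.finite_toSet).subset fun x hx => ?_
        simp only [Finset.mem_coe, Multiset.mem_toFinset]
        exact (mem_roots ha0).mpr hx
      exact h1.preimage (Nat.cast_injective.injOn)
    obtain ⟨N, hN⟩ := hf.bddAbove
    refine ⟨N + 1, fun m hm h => ?_⟩
    have := hN (show m ∈ {m : ℕ | a.eval (m : K) = 0} from h)
    omega
  refine ⟨R.roots.toFinset.image fun r => (r, a), fun k B => ?_⟩
  let sh : ℕ → K[X][X] := fun j => q.map (compRingHom (X + C (j : K)))
  have h1 : (∏ j ∈ Finset.range k, sh j).Monic :=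
    monic_prod_of_monic _ _ fun j _ => hqm.map _
  have h2 : ∀ g : K[X], (∏ j ∈ Finset.range k, sh j).eval g ≠ 0 := by
    intro g hg
    rw [eval_prod, Finset.prod_eq_zero_iff] at hg
    obtain ⟨j, _, hg⟩ := hg
    refine hqr (g.comp (X - C (j : K))) ?_
    have h3 := congrArg (compRingHom (X - C (j : K))) hg
    rw [map_zero] at h3
    simp only [sh] at h3
    rw [eval_map, hom_eval₂] at h3
    have h4 : (compRingHom (X - C (j : K))).comp (compRingHom (X + C (j : K)))
        = RingHom.id K[X] := by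
      apply Polynomial.ringHom_ext
      · intro a
        simp
      · simp
    rw [h4] at h3
    exact h3
  obtain ⟨t, ht, hx⟩ := Pool.Agent.TH716.RK.hp_nf K _ h1 h2 ((max B N : ℕ) : ℤ)
  have ht0 : 0 ≤ t := by
    have : (0:ℤ) ≤ ((max B N : ℕ) : ℤ) := Int.natCast_nonneg _
    omega
  obtain ⟨s, rfl⟩ := Int.eq_ofNat_of_zero_le ht0
  have hs : max B N < s := by exact_mod_cast ht
  have hsB : B ≤ s := ((le_max_left _ _).trans_lt hs).le
  have hsN : N ≤ s := ((le_max_right _ _).trans_lt hs).le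
  refine ⟨s, hsB, fun m hm1 hm2 i y hy => ?_⟩
  have ham : a.eval (m : K) ≠ 0 := hN m (hsN.trans hm1)
  -- `y` is a root of `Q`
  have hy1 : Q.eval₂ (evalRingHom (m : K)) y = 0 := by
    rw [eval_map] at hy
    rw [hQ, eval₂_mul, eval₂_finsetProd, Finset.prod_eq_zero (Finset.mem_univ i) hy, mul_zero]
  have hy2 : R.eval₂ (evalRingHom (m : K)) (a.eval (m : K) * y) = 0 := by
    have := integralNormalization_eval₂_leadingCoeff_mul hdeg (evalRingHom (m : K)) y
    rw [hy1, mul_zero] at this
    exact this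
  rw [← hq1, eval₂_mul] at hy2
  rcases mul_eq_zero.mp hy2 with h | h
  · rw [eval₂_multiset_prod, Multiset.map_map, Multiset.prod_eq_zero_iff, Multiset.mem_map] at h
    obtain ⟨r, hr, hr2⟩ := h
    refine ⟨(r, a), Finset.mem_image.mpr ⟨r, Multiset.mem_toFinset.mpr hr, rfl⟩, ham, ?_⟩
    simp only [Function.comp_apply, eval₂_sub, eval₂_X, eval₂_C, coe_evalRingHom] at hr2
    exact sub_eq_zero.mp hr2
  · exfalso
    have h3 := hx (a.eval (m : K) * y)
    rw [evalEval_prod, Finset.prod_ne_zero_iff] at h3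
    refine h3 (m - s) (Finset.mem_range.mpr (by omega)) ?_
    simp only [sh]
    rw [hit_shift, ← hit_eval, eval_map]
    have h4 : (((s : ℕ) : ℤ) : K) + ((m - s : ℕ) : K) = (m : K) := by
      rw [Int.cast_natCast, ← Nat.cast_add]
      congr 1
      omega
    rw [h4]
    exact h

end Pool.Agent.N419.HQ
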