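import Pool.Agent.N419.HQ.Stm

/-!
T12: from runs to progressions.
-/

set_option autoImplicit false

namespace Pool.Agent.N419.HQ

open Polynomial Matrix

section

variable {F : Type} [Field F] {r n : ℕ}

/-- the generic vector -/
noncomputable def lineY (M : Matrix (Fin (n + 1)) (Fin r) F) (v : Fin r → F) (p : Fin (n + 1)) :
    MvPolynomial (Fin r × Fin r) F[X] :=
  ∑ i, MvPolynomial.C (C (M p i)) * ∑ j, MvPolynomial.X (i, j) * MvPolynomial.C (C (v j))

theorem line_ev_y (M : Matrix (Fin (n + 1)) (Fin r) F) (v : Fin r → F) (p : Fin (n + 1)) (a : F)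
    (W : Matrix (Fin r) (Fin r) F) :
    ev a W (lineY M v p) = (M.mulVec (W.mulVec v)) p := by
  simp [lineY, ev, Matrix.mulVec, dotProduct]

theorem line_ev_C (a : F) (W : Matrix (Fin r) (Fin r) F) (g : F[X]) :
    ev a W (MvPolynomial.C g) = g.eval a := by
  simp [ev]

/-- the polynomial `G` of the generic vector -/
noncomputable def lineG (M : Matrix (Fin (n + 1)) (Fin r) F) (v : Fin r → F)
    (G : MvPolynomial (Fin (n + 1)) F) : MvPolynomial (Fin r × Fin r) F[X] :=
  MvPolynomial.eval₂ ((MvPolynomial.C).comp (C : F →+* F[X])) (lineY M v) G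

theorem line_ev_G (M : Matrix (Fin (n + 1)) (Fin r) F) (v : Fin r → F)
    (G : MvPolynomial (Fin (n + 1)) F) (a : F) (W : Matrix (Fin r) (Fin r) F) :
    ev a W (lineG M v G) = MvPolynomial.eval (M.mulVec (W.mulVec v)) G := by
  unfold lineG
  rw [MvPolynomial.hom_eval₂]
  have h1 : (ev a W).comp ((MvPolynomial.C).comp (C : F →+* F[X])) = RingHom.id F := by
    ext x
    simp [ev]
  have h2 : (ev a W : MvPolynomial (Fin r × Fin r) F[X] → F) ∘ lineY M v =
      M.mulVec (W.mulVec v) := by
    funext p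
    exact line_ev_y M v p a W
  rw [h1]
  exact congrArg (fun y => MvPolynomial.eval₂ (RingHom.id F) y G) h2

end

/-- T12 -/
theorem t_line (h1 : S_run) (h2 : S_ap) : S_line := by
  classical
  intro F _ r n A M v G s ρ hρ hchar hrun
  set R := MvPolynomial (Fin r × Fin r) F[X] with hR
  set x : ℕ → Fin (n + 1) → F := fun m => M.mulVec ((sys A m).mulVec v) with hx
  let gen : Option (Option (Fin s)) → Set R := fun l =>
    match l with
    | none => {lineG M v G}
    | some none => Set.range (lineY M v)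
    | some (some l) => Set.range fun pq : Fin (n + 1) × Fin (n + 1) =>
        lineY M v pq.1 * MvPolynomial.C (ρ l pq.2) - lineY M v pq.2 * MvPolynomial.C (ρ l pq.1)
  let c : Option (Option (Fin s)) → Ideal R := fun l => Ideal.span (gen l)
  let φ : ℕ → R →+* F := fun m => ev (m : F) (sys A m)
  have hval : ∀ (m : ℕ) (f : R), val (shift A) (ev 0 1) m f = φ m f := fun m f => val_sys A m f
  have hZ : ∀ m l, c l ≤ RingHom.ker (φ m) ↔ ∀ g ∈ gen l, φ m g = 0 := by
    intro m l
    exact Ideal.span_le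
  have hZ0 : ∀ m, c none ≤ RingHom.ker (φ m) ↔ MvPolynomial.eval (x m) G = 0 := by
    intro m
    refine (hZ m none).trans ?_
    constructor
    · intro h
      have := h (lineG M v G) rfl
      rwa [line_ev_G] at this
    · intro h g hg
      rw [Set.mem_singleton_iff.1 hg]
      exact (line_ev_G M v G _ _).trans h
  have hZ1 : ∀ m, c (some none) ≤ RingHom.ker (φ m) ↔ x m = 0 := by
    intro m
    refine (hZ m (some none)).trans ?_
    constructor
    · intro h
      funext p
      have := h (lineY M v p) ⟨p, rfl⟩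
      rwa [line_ev_y] at this
    · rintro h g ⟨p, rfl⟩
      exact (line_ev_y M v p _ _).trans (congrFun h p)
  have hZ2 : ∀ m l, c (some (some l)) ≤ RingHom.ker (φ m) ↔
      ∀ p q, x m p * (ρ l q).eval (m : F) - x m q * (ρ l p).eval (m : F) = 0 := by
    intro m l
    have e : ∀ p q, φ m (lineY M v p * MvPolynomial.C (ρ l q) -
        lineY M v q * MvPolynomial.C (ρ l p)) =
        x m p * (ρ l q).eval (m : F) - x m q * (ρ l p).eval (m : F) := by
      intro p q
      show ev (m : F) (sys A m) _ = _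
      rw [map_sub, map_mul, map_mul, line_ev_y, line_ev_y, line_ev_C, line_ev_C]
    refine (hZ m (some (some l))).trans ?_
    constructor
    · intro h p q
      rw [← e]
      exact h _ ⟨(p, q), rfl⟩
    · rintro h g ⟨⟨p, q⟩, rfl⟩
      exact (e p q).trans (h p q)
  -- the product ideal
  set P : Ideal R := ∏ l, c l with hP
  obtain ⟨S, hS⟩ : P.FG := IsNoetherian.noetherian P
  have hk : ∀ f : R, ∃ k : ℕ, ∀ a : ℕ, (∀ i < k, φ (a + i) f = 0) → ∀ m ≥ a, φ m f = 0 := by
    intro f
    obtain ⟨k, hk⟩ := h1 R F (shift A) (ev 0 1) f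
    refine ⟨k, fun a ha m hm => ?_⟩
    rw [← hval]
    exact hk a (fun i hi => by rw [hval]; exact ha i hi) m hm
  choose k hk using hk
  obtain ⟨t, -, ht⟩ := hrun (S.sup k) 0
  have hrunZ : ∀ m, t ≤ m → m < t + S.sup k → ∃ l, c l ≤ RingHom.ker (φ m) := by
    intro m h3 h4
    rcases ht m h3 h4 with h | h | ⟨l, d, h⟩
    · exact ⟨none, (hZ0 m).2 h⟩
    · exact ⟨some none, (hZ1 m).2 h⟩
    · refine ⟨some (some l), (hZ2 m l).2 fun p q => ?_⟩
      have e : ∀ j, x m j = d * (ρ l j).eval (m : F) := fun j => congrFun h j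
      rw [e, e]
      ring
  have hPle : ∀ l, P ≤ c l := by
    intro l
    exact (Ideal.prod_le_inf.trans (Finset.inf_le (Finset.mem_univ l)))
  have hS0 : ∀ f ∈ S, ∀ m ≥ t, φ m f = 0 := by
    intro f hf
    refine hk f t fun i hi => ?_
    obtain ⟨l, hl⟩ := hrunZ (t + i) (by omega) (by
      have : k f ≤ S.sup k := Finset.le_sup hf
      omega)
    have h5 : f ∈ P := by
      rw [← hS]
      exact Ideal.subset_span hf
    exact hl (hPle l h5)
  have hall : ∀ m ≥ t, ∃ l, c l ≤ RingHom.ker (φ m) := by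
    intro m hm
    have h5 : P ≤ RingHom.ker (φ m) := by
      rw [← hS]
      exact Ideal.span_le.2 fun f hf => hS0 f hf m hm
    have hprime : (RingHom.ker (φ m)).IsPrime := RingHom.ker_isPrime (φ m)
    obtain ⟨l, -, hl⟩ := hprime.prod_le.1 h5
    exact ⟨l, hl⟩
  obtain ⟨T, hT, hTa⟩ := h2 R F (shift A) (ev 0 1) (Option (Option (Fin s))) c
    ⟨t, fun m hm => by
      obtain ⟨l, hl⟩ := hall m hm
      exact ⟨l, fun f hf => by rw [hval]; exact hl hf⟩⟩
  refine ⟨T, hT, fun a => ?_⟩
  obtain ⟨l, N, hN⟩ := hTa a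
  have hN' : ∀ m ≥ N, m % T = a % T → c l ≤ RingHom.ker (φ m) := by
    intro m hm hmT f hf
    rw [RingHom.mem_ker, ← hval]
    exact hN m hm hmT f hf
  match l, hN' with
  | none, hN' =>
    left
    exact ⟨N, fun m hm hmT => (hZ0 m).1 (hN' m hm hmT)⟩
  | some none, hN' =>
    right
    left
    exact ⟨N, fun m hm hmT => (hZ1 m).1 (hN' m hm hmT)⟩
  | some (some l), hN' =>
    right
    right
    obtain ⟨q0, hq0⟩ : ∃ q0, ρ l q0 ≠ 0 := by
      by_contra h
      push Not at h
      exact hρ l (funext h)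
    have hfin : {m : ℕ | (ρ l q0).eval (m : F) = 0}.Finite := by
      have h5 : {a : F | (ρ l q0).IsRoot a}.Finite := Polynomial.finite_setOfPred_isRoot hq0
      exact h5.preimage (Nat.cast_injective.injOn)
    obtain ⟨N', hN''⟩ := hfin.bddAbove
    refine ⟨l, max N (N' + 1), fun m hm hmT => ?_⟩
    have h6 : (ρ l q0).eval (m : F) ≠ 0 := by
      intro h
      have := hN'' h
      have := le_trans (le_max_right N (N' + 1)) hm
      omega
    have h7 := (hZ2 m l).1 (hN' m (le_trans (le_max_left _ _) hm) hmT)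
    refine ⟨x m q0 / (ρ l q0).eval (m : F), funext fun j => ?_⟩
    have h8 := h7 j q0
    show x m j = _
    field_simp
    linear_combination h8

end Pool.Agent.N419.HQ
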