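import Pool.Agent.N419.HQ.Stm

/-!
Values of difference systems on varieties without rational curves over number fields.
-/

set_option autoImplicit false

namespace Pool.Agent.N419.HQ

open Polynomial Matrix

theorem main_sys_map {K L : Type} [Field K] [Field L] (τ : K →+* L) {r : ℕ}
    (A : Matrix (Fin r) (Fin r) K[X]) (m : ℕ) :
    sys (A.map (mapRingHom τ)) m = (sys A m).map τ := by
  induction m with
  | zero => simp [sys]
  | succ m ih =>
    rw [sys, sys, ih, Matrix.map_mul]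
    congr 1
    ext i j
    simp only [Matrix.map_apply, coe_mapRingHom]
    exact eval_natCast_map τ (A i j) m

theorem main_det_map {K L : Type} [Field K] [Field L] (τ : K →+* L) {r : ℕ}
    (A : Matrix (Fin r) (Fin r) K[X]) (m : ℕ) :
    (A.map (mapRingHom τ)).det.eval (m : L) = τ (A.det.eval (m : K)) := by
  have h : (A.map (mapRingHom τ)).det = A.det.map τ := (RingHom.map_det (mapRingHom τ) A).symm
  rw [h]
  exact eval_natCast_map τ _ m

theorem main_mulVec_map {K L : Type} [Field K] [Field L] (τ : K →+* L) {r n : ℕ}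
    (M : Matrix (Fin n) (Fin r) K) (v : Fin r → K) :
    (M.map τ).mulVec (fun j => τ (v j)) = fun j => τ (M.mulVec v j) := by
  ext j
  simp [Matrix.mulVec, dotProduct]

theorem exists_nat_ne {K : Type} [Field K] [CharZero K] {n : ℕ} (ρ : Fin (n + 1) → K[X])
    (h : ρ ≠ 0) : ∃ b : ℕ, (fun j => (ρ j).eval (b : K)) ≠ 0 := by
  obtain ⟨j, hj⟩ := Function.ne_iff.1 h
  by_contra hcon
  push Not at hcon
  apply hj
  refine Polynomial.eq_zero_of_infinite_isRoot _ ?_
  refine Set.Infinite.mono ?_ (Set.infinite_range_of_injective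
    (Nat.cast_injective : Function.Injective (fun b : ℕ => (b : K))))
  rintro _ ⟨b, rfl⟩
  exact congrFun (hcon b) j

theorem main_line (hcore : S_core) (hrel : S_rel) (hbd : S_bd) (hdesc : S_desc)
    (hruns : S_runs) (hline : S_line) {K : Type} [Field K] [NumberField K] (τ : K →+* ℂ)
    {n r B : ℕ} (FF : Set (MvPolynomial (Fin (n + 1)) K)) (hhom : ∀ F ∈ FF, ∃ e, F.IsHomogeneous e)
    (hO : OrbB ((MvPolynomial.map τ) '' FF) 1 r B) (hB : 1 ≤ B)
    (hno : ∀ ρ : Fin (n + 1) → K[X], (∀ F ∈ FF, MvPolynomial.aeval ρ F = 0) →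
      ∀ i j (a b : K), (ρ i).eval a * (ρ j).eval b = (ρ j).eval a * (ρ i).eval b)
    (A : Matrix (Fin r) (Fin r) K[X]) (hA : ∀ m : ℕ, A.det.eval (m : K) ≠ 0)
    (M : Matrix (Fin (n + 1)) (Fin r) K) (v : Fin r → K)
    (hX : ∃ N : ℕ, ∀ m ≥ N, ∀ F ∈ FF, MvPolynomial.eval (M.mulVec ((sys A m).mulVec v)) F = 0) :
    ∃ c : Fin B → Fin (n + 1) → K, ∃ T : ℕ, 1 ≤ T ∧ ∀ a : ℕ, ∃ i, ∃ N : ℕ, ∀ m ≥ N,
      m % T = a % T → ∃ s : K, M.mulVec ((sys A m).mulVec v) = s • c i := by
  classical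
  set x : ℕ → Fin (n + 1) → K := fun m => M.mulVec ((sys A m).mulVec v) with hxdef
  have hx : ∀ m, (M.map τ).mulVec ((sys (A.map (mapRingHom τ)) m).mulVec fun j => τ (v j)) =
      fun j => τ (x m j) := by
    intro m
    rw [main_sys_map, main_mulVec_map, main_mulVec_map]
  have hτ1 : ∀ (m : ℕ) (F : MvPolynomial (Fin (n + 1)) K),
      MvPolynomial.eval (fun j => τ (x m j)) (MvPolynomial.map τ F) =
        τ (MvPolynomial.eval (x m) F) := by
    intro m F
    rw [MvPolynomial.eval_map]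
    exact (MvPolynomial.eval₂_comp_left τ (RingHom.id K) (x m) F).symm
  obtain ⟨N0, hN0⟩ := hX
  obtain ⟨E, iE, iA, hinj, halg, c', N1, hN1⟩ := hcore n r B ((MvPolynomial.map τ) '' FF) 1 hO
    (A.map (mapRingHom τ)) (fun m => by
      rw [main_det_map]
      exact fun h => hA m ((map_eq_zero τ).1 h)) (M.map τ) (fun j => τ (v j))
    ⟨N0, by
      rintro m hm _ ⟨F, hF, rfl⟩
      rw [hx, hτ1, hN0 m hm F hF, map_zero]⟩
  have hN1' : ∀ m ≥ N1, ∃ i, ∀ (d : ℕ) (f : MvPolynomial (Fin (n + 1)) ℂ[X]),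
      f.IsHomogeneous d → MvPolynomial.aeval (c' i) f = 0 →
        MvPolynomial.eval₂ (evalRingHom (m : ℂ)) (fun j => τ (x m j)) f = 0 := by
    intro m hm
    rcases hN1 m hm with h | h
    · rw [map_one] at h
      exact absurd h one_ne_zero
    · rw [hx] at h
      exact h
  -- algebraic relations of the ratios
  have hPK : ∀ p q, ∃ P : K[X][X], P ≠ 0 ∧ ∃ N : ℕ, ∀ m ≥ N,
      MvPolynomial.eval (x m) (1 : MvPolynomial (Fin (n + 1)) K) ≠ 0 →
      x m p ≠ 0 → (P.map (evalRingHom (m : K))).eval (x m q / x m p) = 0 := by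
    intro p q
    obtain ⟨P, hP0, hP⟩ := hrel n B E hinj halg c' p q
    obtain ⟨Q, hQ0, hQ⟩ := hdesc K τ {m | N1 ≤ m ∧ x m p ≠ 0} (fun m => x m q / x m p)
      ⟨P, hP0, by
        rintro m ⟨hm1, hm2⟩
        have h1 := hP m (fun j => τ (x m j)) (fun h => hm2 ((map_eq_zero τ).1 h)) (hN1' m hm1)
        rw [map_div₀]
        exact h1⟩
    exact ⟨Q, hQ0, N1, fun m hm _ hp => hQ m ⟨hm, hp⟩⟩
  obtain ⟨s, ρ, hρ0, hρF, hrun⟩ := hruns K n FF 1 hhom x ⟨N0, hN0⟩ hPK
  obtain ⟨T, hT, hcl⟩ := hline K r n A M v 1 s ρ hρ0 inferInstance hrun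
  -- the points
  have hb : ∀ l, ∃ b : ℕ, (fun j => (ρ l j).eval (b : K)) ≠ 0 := fun l => exists_nat_ne _ (hρ0 l)
  choose b hb using hb
  let e : Fin s → Fin (n + 1) → K := fun l j => (ρ l j).eval (b l : K)
  have he : ∀ l (a : K), ∃ t : K, (fun j => (ρ l j).eval a) = t • e l := by
    intro l a
    obtain ⟨j0, hj0⟩ := Function.ne_iff.1 (hb l)
    have hj0' : e l j0 ≠ 0 := hj0
    refine ⟨(ρ l j0).eval a / e l j0, ?_⟩
    ext i
    rw [Pi.smul_apply, smul_eq_mul, div_mul_eq_mul_div, eq_div_iff hj0']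
    exact hno (ρ l) (hρF l) i j0 a (b l)
  let ψ : K →+* E := (algebraMap ℂ[X] E).comp (C.comp τ)
  let Rl : Fin B → Fin s → Prop := fun i l => ∀ p q, c' i p * ψ (e l q) = c' i q * ψ (e l p)
  let c : Fin B → Fin (n + 1) → K := fun i => if h : ∃ l, Rl i l then e h.choose else 0
  refine ⟨c, T, hT, fun a => ?_⟩
  rcases hcl a with ⟨N, hN⟩ | ⟨N, hN⟩ | ⟨l, N, hN⟩
  · exfalso
    have h1 := hN (a + T * N) (by nlinarith) (by simp)
    rw [map_one] at h1
    exact one_ne_zero h1
  · exact ⟨⟨0, by omega⟩, N, fun m hm hma => ⟨0, by rw [zero_smul]; exact hN m hm hma⟩⟩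
  · have hline2 : ∀ m ≥ N, m % T = a % T → ∃ t : K, x m = t • e l := by
      intro m hm hma
      obtain ⟨t, ht⟩ := hN m hm hma
      obtain ⟨t', ht'⟩ := he l (m : K)
      refine ⟨t * t', ?_⟩
      rw [mul_smul, ← ht']
      exact ht
    by_cases hinf : {m : ℕ | (N ≤ m ∧ N1 ≤ m) ∧ m % T = a % T ∧ x m ≠ 0}.Infinite
    · obtain ⟨i, hi0, hi⟩ := hbd n B E hinj halg c' (fun m j => τ (x m j))
        (fun j => C (τ (e l j))) _ hinf (by
          rintro m ⟨-, -, hm⟩ h
          apply hm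
          ext j
          exact (map_eq_zero τ).1 (congrFun h j)) (by
          rintro m ⟨⟨hm1, -⟩, hm2, -⟩ p q
          obtain ⟨t, ht⟩ := hline2 m hm1 hm2
          simp only [eval_C, ← map_mul]
          rw [ht]
          simp only [Pi.smul_apply, smul_eq_mul]
          congr 1
          ring) (by
          rintro m ⟨⟨-, hm1⟩, -, -⟩
          exact hN1' m hm1)
      have hR : Rl i l := fun p q => hi p q
      have hex : ∃ l, Rl i l := ⟨l, hR⟩
      have hci : c i = e hex.choose := dif_pos hex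
      have hR' : Rl i hex.choose := hex.choose_spec
      refine ⟨i, N, fun m hm hma => ?_⟩
      obtain ⟨t, ht⟩ := hline2 m hm hma
      obtain ⟨p0, hp0⟩ := Function.ne_iff.1 hi0
      have hp0' : c' i p0 ≠ 0 := hp0
      have he' : e hex.choose p0 ≠ 0 := by
        intro h0
        apply hb hex.choose
        ext q
        have h1 := hR' p0 q
        rw [h0, map_zero, mul_zero] at h1
        have h2 := (mul_eq_zero.1 h1).resolve_left hp0'
        exact (map_eq_zero ψ).1 h2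
      refine ⟨t * (e l p0 / e hex.choose p0), ?_⟩
      change x m = _
      rw [ht, hci, mul_smul]
      congr 1
      ext q
      rw [Pi.smul_apply, smul_eq_mul, div_mul_eq_mul_div, eq_div_iff he']
      apply ψ.injective
      rw [map_mul, map_mul]
      have h1 := hR p0 q
      have h2 := hR' p0 q
      apply mul_left_cancel₀ hp0'
      calc c' i p0 * (ψ (e l q) * ψ (e hex.choose p0))
          = (c' i p0 * ψ (e l q)) * ψ (e hex.choose p0) := by ring
        _ = (c' i q * ψ (e l p0)) * ψ (e hex.choose p0) := by rw [h1]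
        _ = (c' i q * ψ (e hex.choose p0)) * ψ (e l p0) := by ring
        _ = (c' i p0 * ψ (e hex.choose q)) * ψ (e l p0) := by rw [← h2]
        _ = c' i p0 * (ψ (e l p0) * ψ (e hex.choose q)) := by ring
    · rw [Set.not_infinite] at hinf
      obtain ⟨N2, hN2⟩ := hinf.bddAbove
      refine ⟨⟨0, by omega⟩, max (N2 + 1) (max N N1), fun m hm hma => ⟨0, ?_⟩⟩
      rw [zero_smul]
      by_contra h0
      have := hN2 (show m ∈ {m : ℕ | (N ≤ m ∧ N1 ≤ m) ∧ m % T = a % T ∧ x m ≠ 0} from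
        ⟨⟨by omega, by omega⟩, hma, h0⟩)
      omega

end Pool.Agent.N419.HQ
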