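import Pool.Agent.N419.HQ.Stm

/-!
Project HQ, T3 and T5 (helper999): a point over a finite extension of `ℂ(X)` outside of a
hypersurface, and the embedding of the algebraic extensions of `ℂ[X]` in `ℂ`.
-/

set_option autoImplicit false

namespace Pool.Agent.N419.HQ

open Polynomial

/-- T5 -/
theorem t_embed : S_embed := by
  intro E _ _ hinj halg
  have hcard : Cardinal.mk ℂ[X] ≤ Cardinal.continuum := by
    refine (Polynomial.cardinalMk_le_max (R := ℂ)).trans ?_
    rw [Cardinal.mk_complex, max_eq_left Cardinal.aleph0_le_continuum]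
  have : Module.IsTorsionFree ℂ[X] E := (faithfulSMul_iff_algebraMap_injective ℂ[X] E).2 hinj |>.to_isTorsionFree
  have h1 : Cardinal.mk E ≤ Cardinal.continuum := by
    refine (Algebra.IsAlgebraic.cardinalMk_le_max ℂ[X] E).trans ?_
    exact max_le hcard Cardinal.aleph0_le_continuum
  have h2 : Cardinal.mk (AlgebraicClosure E) ≤ Cardinal.continuum := by
    refine (Algebra.IsAlgebraic.cardinalMk_le_max E (AlgebraicClosure E)).trans ?_
    exact max_le h1 Cardinal.aleph0_le_continuum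
  have : CharZero E := charZero_of_injective_algebraMap (R := ℂ[X]) hinj
  have h3 : Cardinal.continuum ≤ Cardinal.mk (AlgebraicClosure E) := by
    rw [← Cardinal.mk_complex]
    refine Cardinal.mk_le_of_injective
      (f := ((algebraMap E (AlgebraicClosure E)).comp ((algebraMap ℂ[X] E).comp C))) ?_
    exact RingHom.injective _
  have h4 : Cardinal.mk (AlgebraicClosure E) = Cardinal.mk ℂ := by
    rw [Cardinal.mk_complex]
    exact le_antisymm h2 h3
  have : CharZero (AlgebraicClosure E) :=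
    charZero_of_injective_algebraMap (R := E) (algebraMap E (AlgebraicClosure E)).injective
  obtain ⟨e⟩ := IsAlgClosed.ringEquiv_of_equiv_of_charZero (K := AlgebraicClosure E) (L := ℂ)
    (by rw [h4, Cardinal.mk_complex]; exact Cardinal.aleph0_lt_continuum) (Cardinal.eq.1 h4)
  exact ⟨(e : AlgebraicClosure E →+* ℂ).comp (algebraMap E (AlgebraicClosure E))⟩

/-- T3 -/
theorem t_null : S_null := by
  intro ι _ I d hI
  -- a nontrivial ring where `I = 0` and `h`, `d` are units
  obtain ⟨L, _, _, ψ, hψI, hψh, hψd⟩ : ∃ (L : Type) (_ : CommRing L) (_ : Nontrivial L)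
      (ψ : MvPolynomial ι ℂ[X] →+* L), (∀ f ∈ I, ψ f = 0) ∧
      (∀ h : ℂ[X], h ≠ 0 → IsUnit (ψ (MvPolynomial.C h))) ∧ IsUnit (ψ d) := by
    obtain ⟨M, hM⟩ : ∃ M : Submonoid (MvPolynomial ι ℂ[X]), ∀ x, x ∈ M ↔
        ∃ h : ℂ[X], h ≠ 0 ∧ ∃ k : ℕ, x = MvPolynomial.C h * d ^ k := by
      refine ⟨⟨⟨{x | ∃ h : ℂ[X], h ≠ 0 ∧ ∃ k : ℕ, x = MvPolynomial.C h * d ^ k}, ?_⟩, ?_⟩,
        fun x => Iff.rfl⟩
      · rintro x y ⟨h, h0, k, rfl⟩ ⟨h', h0', k', rfl⟩
        exact ⟨h * h', mul_ne_zero h0 h0', k + k', by rw [MvPolynomial.C_mul]; ring⟩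
      · exact ⟨1, one_ne_zero, 0, by simp⟩
    obtain ⟨S, _, π, hπ⟩ : ∃ (S : Type) (_ : CommRing S) (π : MvPolynomial ι ℂ[X] →+* S),
        ∀ f, π f = 0 ↔ f ∈ I :=
      ⟨MvPolynomial ι ℂ[X] ⧸ I, inferInstance, Ideal.Quotient.mk I, fun f =>
        Ideal.Quotient.eq_zero_iff_mem⟩
    let M' : Submonoid S := M.map π
    have h0 : (0 : S) ∉ M' := by
      rintro ⟨x, hx, hx0⟩
      obtain ⟨h, h0, k, rfl⟩ := (hM x).1 hx
      exact hI h h0 k ((hπ _).1 hx0)
    have hnt : Nontrivial (Localization M') := by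
      rw [← not_subsingleton_iff_nontrivial, IsLocalization.subsingleton_iff (M := M')]
      exact h0
    have hu : ∀ x ∈ M, IsUnit (algebraMap S (Localization M') (π x)) := fun x hx =>
      IsLocalization.map_units (Localization M') ⟨_, Submonoid.mem_map_of_mem _ hx⟩
    refine ⟨Localization M', inferInstance, hnt, (algebraMap S (Localization M')).comp π,
      fun f hf => ?_, fun h hh => ?_, ?_⟩
    · rw [RingHom.comp_apply, (hπ f).2 hf, map_zero]
    · exact hu _ ((hM _).2 ⟨h, hh, 0, by simp⟩)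
    · exact hu _ ((hM _).2 ⟨1, one_ne_zero, 1, by simp⟩)
  let K := FractionRing ℂ[X]
  obtain ⟨g, hg⟩ : ∃ g : K →+* L, ∀ h : ℂ[X], g (algebraMap ℂ[X] K h) = ψ (MvPolynomial.C h) := by
    have hunit : ∀ y : nonZeroDivisors ℂ[X], IsUnit ((ψ.comp MvPolynomial.C) (y : ℂ[X])) :=
      fun y => hψh _ (nonZeroDivisors.ne_zero y.2)
    exact ⟨IsLocalization.lift hunit, fun h => IsLocalization.lift_eq hunit h⟩
  obtain ⟨u, hu⟩ := hψd
  let φ : MvPolynomial (Option ι) K →+* L :=
    MvPolynomial.eval₂Hom g fun o => o.elim ((u⁻¹ : Lˣ) : L) fun i => ψ (MvPolynomial.X i)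
  let θ : MvPolynomial ι ℂ[X] →+* MvPolynomial (Option ι) K :=
    MvPolynomial.eval₂Hom (MvPolynomial.C.comp (algebraMap ℂ[X] K))
      fun i => MvPolynomial.X (some i)
  have hφθ : φ.comp θ = ψ := by
    apply MvPolynomial.ringHom_ext
    · intro r
      simp [φ, θ, hg]
    · intro i
      simp [φ, θ]
  have hJ : RingHom.ker φ ≠ ⊤ := RingHom.ker_ne_top φ
  obtain ⟨m, hm, hJm⟩ := Ideal.exists_le_maximal _ hJ
  let _ : Field (MvPolynomial (Option ι) K ⧸ m) := Ideal.Quotient.field m
  have hfin : Module.Finite K (MvPolynomial (Option ι) K ⧸ m) :=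
    finite_of_finite_type_of_isJacobsonRing K _
  have halgK : Algebra.IsAlgebraic K (MvPolynomial (Option ι) K ⧸ m) := inferInstance
  have halg : Algebra.IsAlgebraic ℂ[X] (MvPolynomial (Option ι) K ⧸ m) :=
    (IsFractionRing.comap_isAlgebraic_iff (A := ℂ[X]) (K := K)).2 halgK
  have hinj : Function.Injective (algebraMap ℂ[X] (MvPolynomial (Option ι) K ⧸ m)) := by
    rw [IsScalarTower.algebraMap_eq ℂ[X] K (MvPolynomial (Option ι) K ⧸ m), RingHom.coe_comp]
    exact (algebraMap K (MvPolynomial (Option ι) K ⧸ m)).injective.comp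
      (IsFractionRing.injective ℂ[X] K)
  have haev : ∀ f : MvPolynomial ι ℂ[X],
      MvPolynomial.aeval (fun i => Ideal.Quotient.mk m (MvPolynomial.X (some i))) f =
        Ideal.Quotient.mk m (θ f) := by
    intro f
    have : ((MvPolynomial.aeval (R := ℂ[X])
        (fun i => Ideal.Quotient.mk m (MvPolynomial.X (some i) : MvPolynomial (Option ι) K)) :
        MvPolynomial ι ℂ[X] →ₐ[ℂ[X]] (MvPolynomial (Option ι) K ⧸ m)) :
        MvPolynomial ι ℂ[X] →+* (MvPolynomial (Option ι) K ⧸ m)) =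
        (Ideal.Quotient.mk m).comp θ := by
      apply MvPolynomial.ringHom_ext
      · intro r
        simp [θ]
        rfl
      · intro i
        simp [θ]
    exact congrArg (fun F => F f) this
  refine ⟨MvPolynomial (Option ι) K ⧸ m, inferInstance, inferInstance, hinj, halg,
    fun i => Ideal.Quotient.mk m (MvPolynomial.X (some i)), fun f hf => ?_, ?_⟩
  · rw [haev, Ideal.Quotient.eq_zero_iff_mem]
    apply hJm
    rw [RingHom.mem_ker, ← RingHom.comp_apply, hφθ]
    exact hψI f hf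
  · rw [haev]
    have h1 : Ideal.Quotient.mk m (MvPolynomial.X none * θ d - 1) = 0 := by
      rw [Ideal.Quotient.eq_zero_iff_mem]
      apply hJm
      rw [RingHom.mem_ker, map_sub, map_mul, map_one, ← RingHom.comp_apply φ θ, hφθ, ← hu]
      simp [φ]
    intro h2
    rw [map_sub, map_mul, h2, mul_zero, map_one, zero_sub, neg_eq_zero] at h1
    exact one_ne_zero h1

end Pool.Agent.N419.HQ
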