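import Pool.Agent.N419.HQ.Stm
import Pool.Agent.Y377.ST.Uniform

/-!
The bound for group orbits on varieties without rational curves, from the library.
-/

set_option autoImplicit false

namespace Pool.Agent.N419.HQ

open MvPolynomial Pool.Agent.TH717.GO Pool.Agent.Y377.ST

theorem orbB_of_noRat {k : Type} [Field k] [NumberField k] {n : ℕ} (σ : k →+* ℂ)
    (FF : Set (MvPolynomial (Fin (n + 1)) k)) (hhom : ∀ F ∈ FF, ∃ e, F.IsHomogeneous e)
    (hno : NoRatC σ FF) (r : ℕ) :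
    ∃ B : ℕ, 1 ≤ B ∧ ∀ τ : k →+* ℂ, OrbB ((MvPolynomial.map τ) '' FF) 1 r B := by
  classical
  obtain ⟨B, hB⟩ := uniform FF hhom (fun R => noRat_all σ FF hno R) 1 r 1
  refine ⟨B + 1, by omega, ?_⟩
  intro τ E _ _ emb H _ ρ M v hX
  let _ : Algebra k E := ((algebraMap ℂ E).comp τ).toAlgebra
  have hX' : ∀ h, ∀ F ∈ FF, aeval (orb M ρ v h) F = 0 := by
    intro h F hF
    have h1 := hX h (MvPolynomial.map τ F) ⟨F, hF, rfl⟩
    rw [aeval_def, eval₂_map] at h1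
    rw [aeval_def]
    exact h1
  have h1 := hB E emb H (orb M ρ v) (iterVec_orb M ρ v) hX'
  have hfin : (ptsOf (orb M ρ v)).Finite := Set.finite_of_encard_le_coe h1
  have hcard : hfin.toFinset.card ≤ B := by
    rw [hfin.encard_eq_coe_toFinset_card] at h1
    exact_mod_cast h1
  let e := hfin.toFinset.equivFin
  refine ⟨fun i => if hi : (i : ℕ) < hfin.toFinset.card then
    (((e.symm ⟨i, hi⟩ : hfin.toFinset) : Projectivization E (Fin (n + 1) → E))).rep else 0, ?_⟩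
  intro h
  right
  by_cases h0 : orb M ρ v h = 0
  · exact ⟨0, 0, by rw [zero_smul]; exact h0⟩
  · have hm : Projectivization.mk E (orb M ρ v h) h0 ∈ hfin.toFinset := by
      rw [Set.Finite.mem_toFinset]
      exact ⟨h, h0, rfl⟩
    have hlt : ((e ⟨_, hm⟩ : Fin _) : ℕ) < hfin.toFinset.card := (e ⟨_, hm⟩).2
    refine ⟨⟨(e ⟨_, hm⟩ : Fin _), by omega⟩, ?_⟩
    simp only [hlt, dif_pos]
    have h2 : e.symm ⟨((e ⟨_, hm⟩ : Fin _) : ℕ), hlt⟩ = ⟨_, hm⟩ := by
      have : (⟨((e ⟨_, hm⟩ : Fin _) : ℕ), hlt⟩ : Fin hfin.toFinset.card) = e ⟨_, hm⟩ := rfl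
      rw [this, Equiv.symm_apply_apply]
    rw [h2]
    obtain ⟨a, ha⟩ := Projectivization.exists_smul_eq_mk_rep E (orb M ρ v h) h0
    refine ⟨((a⁻¹ : Eˣ) : E), ?_⟩
    change orb M ρ v h = _
    rw [← ha, Units.smul_def, smul_smul, Units.inv_mul, one_smul]

end Pool.Agent.N419.HQ
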