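import Pool.Agent.N419.HQ.Stm

/-!
T6, T7: homogeneous relations of points with algebraic coordinates.
-/

set_option autoImplicit false

namespace Pool.Agent.N419.HQ

open Polynomial Matrix

section

variable {R : Type} [CommRing R] {σ : Type}

/-- `∑ a_j l ^ j X_p ^ (D - j)` -/
noncomputable def relF (P : R[X]) (l : MvPolynomial σ R) (p : σ) : MvPolynomial σ R :=
  ∑ j ∈ Finset.range (P.natDegree + 1),
    MvPolynomial.C (P.coeff j) * l ^ j * MvPolynomial.X p ^ (P.natDegree - j)

theorem rel_homog (P : R[X]) (l : MvPolynomial σ R) (hl : l.IsHomogeneous 1) (p : σ) :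
    (relF P l p).IsHomogeneous P.natDegree := by
  unfold relF
  refine MvPolynomial.IsHomogeneous.sum _ _ _ fun j hj => ?_
  have hj' : j ≤ P.natDegree := by
    have := Finset.mem_range.1 hj
    omega
  have h1 : (MvPolynomial.C (P.coeff j) * l ^ j * MvPolynomial.X p ^ (P.natDegree - j) :
      MvPolynomial σ R).IsHomogeneous (0 + 1 * j + 1 * (P.natDegree - j)) :=
    ((MvPolynomial.isHomogeneous_C _ _).mul (hl.pow j)).mul
      ((MvPolynomial.isHomogeneous_X _ _).pow _)
  have h2 : 0 + 1 * j + 1 * (P.natDegree - j) = P.natDegree := by omega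
  rwa [h2] at h1

theorem rel_eval {S : Type} [Field S] (P : R[X]) (l : MvPolynomial σ R) (p : σ) (φ : R →+* S)
    (x : σ → S) (hp : x p ≠ 0) :
    MvPolynomial.eval₂ φ x (relF P l p) =
      x p ^ P.natDegree * (P.map φ).eval (MvPolynomial.eval₂ φ x l / x p) := by
  unfold relF
  rw [MvPolynomial.eval₂_sum, Polynomial.eval_map, Polynomial.eval₂_eq_sum_range, Finset.mul_sum]
  refine Finset.sum_congr rfl fun j hj => ?_
  have hj' : j ≤ P.natDegree := by
    have := Finset.mem_range.1 hj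
    omega
  rw [MvPolynomial.eval₂_mul, MvPolynomial.eval₂_mul, MvPolynomial.eval₂_C,
    MvPolynomial.eval₂_pow, MvPolynomial.eval₂_pow, MvPolynomial.eval₂_X, div_pow]
  obtain ⟨e, he⟩ := Nat.exists_eq_add_of_le hj'
  have h3 : P.natDegree - j = e := by omega
  rw [h3, he, pow_add]
  field_simp

end

/-- T6 -/
theorem t_rel : S_rel := by
  classical
  intro n B E _ _ hinj halg c p q
  have key : ∀ i : Fin B, ∃ P : ℂ[X][X], P ≠ 0 ∧ ∀ (m : ℕ) (x : Fin (n + 1) → ℂ), x p ≠ 0 →
      (∀ (d : ℕ) (f : MvPolynomial (Fin (n + 1)) ℂ[X]), f.IsHomogeneous d →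
        MvPolynomial.aeval (c i) f = 0 → MvPolynomial.eval₂ (evalRingHom (m : ℂ)) x f = 0) →
      (P.map (evalRingHom (m : ℂ))).eval (x q / x p) = 0 := by
    intro i
    by_cases hi : c i p = 0
    · refine ⟨1, one_ne_zero, fun m x hx h => ?_⟩
      have h1 := h 1 (MvPolynomial.X p) (MvPolynomial.isHomogeneous_X _ _) (by
        rw [MvPolynomial.aeval_X, hi])
      rw [MvPolynomial.eval₂_X] at h1
      exact absurd h1 hx
    · obtain ⟨P, hP0, hP⟩ := halg.isAlgebraic (c i q / c i p)
      refine ⟨P, hP0, fun m x hx h => ?_⟩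
      have h1 := h P.natDegree (relF P (MvPolynomial.X q) p)
        (rel_homog P _ (MvPolynomial.isHomogeneous_X _ _) p) (by
          rw [MvPolynomial.aeval_def, rel_eval P _ p _ _ hi, MvPolynomial.eval₂_X]
          rw [Polynomial.eval_map_algebraMap, hP, mul_zero])
      rw [rel_eval P _ p _ _ hx, MvPolynomial.eval₂_X] at h1
      exact (mul_eq_zero.1 h1).resolve_left (pow_ne_zero _ hx)
  choose P hP0 hP using key
  refine ⟨∏ i, P i, Finset.prod_ne_zero_iff.2 fun i _ => hP0 i, fun m x hx ⟨i, hi⟩ => ?_⟩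
  rw [Polynomial.map_prod, Polynomial.eval_prod]
  exact Finset.prod_eq_zero (Finset.mem_univ i) (hP i m x hx hi)

/-- T7 -/
theorem t_bd : S_bd := by
  classical
  intro n B E _ _ hinj halg c x ρ S hS hx0 hprop hQ
  set Q : Fin B → ℕ → Prop := fun i m => ∀ (d : ℕ) (f : MvPolynomial (Fin (n + 1)) ℂ[X]),
    f.IsHomogeneous d → MvPolynomial.aeval (c i) f = 0 →
      MvPolynomial.eval₂ (evalRingHom (m : ℂ)) (x m) f = 0 with hQdef
  obtain ⟨i, hi⟩ : ∃ i, {m | m ∈ S ∧ Q i m}.Infinite := by
    by_contra h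
    push Not at h
    refine hS ((Set.finite_iUnion fun i => h i).subset fun m hm => ?_)
    obtain ⟨i, hi⟩ := hQ m hm
    exact Set.mem_iUnion.2 ⟨i, hm, hi⟩
  refine ⟨i, ?_, ?_⟩
  · intro h0
    obtain ⟨m, hm, hQm⟩ := hi.nonempty
    refine hx0 m hm (funext fun p => ?_)
    have h1 := hQm 1 (MvPolynomial.X p) (MvPolynomial.isHomogeneous_X _ _) (by
        rw [MvPolynomial.aeval_X, h0]
        rfl)
    rwa [MvPolynomial.eval₂_X] at h1
  · intro p q
    by_contra hne
    set w : E := c i p * algebraMap ℂ[X] E (ρ q) - c i q * algebraMap ℂ[X] E (ρ p) with hw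
    have hw0 : w ≠ 0 := sub_ne_zero.2 hne
    set l : MvPolynomial (Fin (n + 1)) ℂ[X] :=
      MvPolynomial.C (ρ q) * MvPolynomial.X p - MvPolynomial.C (ρ p) * MvPolynomial.X q with hl
    have hlh : l.IsHomogeneous 1 := by
      have h1 : (MvPolynomial.C (ρ q) * MvPolynomial.X p :
          MvPolynomial (Fin (n + 1)) ℂ[X]).IsHomogeneous (0 + 1) :=
        (MvPolynomial.isHomogeneous_C _ _).mul (MvPolynomial.isHomogeneous_X _ _)
      have h2 : (MvPolynomial.C (ρ p) * MvPolynomial.X q :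
          MvPolynomial (Fin (n + 1)) ℂ[X]).IsHomogeneous (0 + 1) :=
        (MvPolynomial.isHomogeneous_C _ _).mul (MvPolynomial.isHomogeneous_X _ _)
      exact h1.sub h2
    have hlc : MvPolynomial.eval₂ (algebraMap ℂ[X] E) (c i) l = w := by
      rw [hl, MvPolynomial.eval₂_sub, MvPolynomial.eval₂_mul, MvPolynomial.eval₂_mul,
        MvPolynomial.eval₂_C, MvPolynomial.eval₂_C, MvPolynomial.eval₂_X, MvPolynomial.eval₂_X, hw]
      ring
    have hlx : ∀ m ∈ S, MvPolynomial.eval₂ (evalRingHom (m : ℂ)) (x m) l = 0 := by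
      intro m hm
      rw [hl, MvPolynomial.eval₂_sub, MvPolynomial.eval₂_mul, MvPolynomial.eval₂_mul,
        MvPolynomial.eval₂_C, MvPolynomial.eval₂_C, MvPolynomial.eval₂_X, MvPolynomial.eval₂_X,
        coe_evalRingHom]
      linear_combination hprop m hm p q
    have hfin : ∀ p0, {m | (m ∈ S ∧ Q i m) ∧ x m p0 ≠ 0}.Finite := by
      intro p0
      by_cases h0 : c i p0 = 0
      · refine Set.finite_empty.subset fun m hm => ?_
        have h1 := hm.1.2 1 (MvPolynomial.X p0) (MvPolynomial.isHomogeneous_X _ _) (by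
          rw [MvPolynomial.aeval_X, h0])
        rw [MvPolynomial.eval₂_X] at h1
        exact absurd h1 hm.2
      · have hz : w / c i p0 ≠ 0 := div_ne_zero hw0 h0
        obtain ⟨P, hP0, hP⟩ := (halg.isAlgebraic (w / c i p0)).exists_nonzero_coeff_and_aeval_eq_zero
          (mem_nonZeroDivisors_of_ne_zero hz)
        have hroot : {m : ℕ | (P.coeff 0).eval (m : ℂ) = 0}.Finite := by
          have h5 : {a : ℂ | (P.coeff 0).IsRoot a}.Finite := Polynomial.finite_setOfPred_isRoot hP0
          exact h5.preimage (Nat.cast_injective.injOn)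
        refine hroot.subset fun m hm => ?_
        have h1 := hm.1.2 P.natDegree (relF P l p0) (rel_homog P _ hlh p0) (by
          rw [MvPolynomial.aeval_def, rel_eval P _ p0 _ _ h0, hlc, Polynomial.eval_map_algebraMap,
            hP, mul_zero])
        rw [rel_eval P _ p0 _ _ hm.2, hlx m hm.1.1, zero_div] at h1
        have h2 := (mul_eq_zero.1 h1).resolve_left (pow_ne_zero _ hm.2)
        rw [← Polynomial.coeff_zero_eq_eval_zero, Polynomial.coeff_map] at h2
        exact h2
    refine hi ((Set.finite_iUnion hfin).subset fun m hm => ?_)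
    obtain ⟨p0, hp0⟩ := Function.ne_iff.1 (hx0 m hm.1)
    exact Set.mem_iUnion.2 ⟨p0, hm, hp0⟩

end Pool.Agent.N419.HQ
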