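import Pool.Agent.N419.HQ.Stm

/-!
# HQ/T1: noetherian rings with an endomorphism, runs and arithmetic progressions (helper558)
-/

set_option autoImplicit false

namespace Pool.Agent.N419.HQ

variable {R F : Type} [CommRing R] [Field F]

/-- `val τ ε m` as a ring homomorphism -/
def runHom (τ : R →+* R) (ε : R →+* F) (m : ℕ) : R →+* F := ε.comp (τ ^ m)

theorem runHom_apply (τ : R →+* R) (ε : R →+* F) (m : ℕ) (f : R) :
    runHom τ ε m f = val τ ε m f := by
  unfold runHom val
  rw [RingHom.comp_apply, RingHom.coe_pow]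

theorem run_mem (τ : R →+* R) (ε : R →+* F) (m : ℕ) (f : R) :
    f ∈ RingHom.ker (runHom τ ε m) ↔ val τ ε m f = 0 := by
  rw [RingHom.mem_ker, runHom_apply]

theorem run_val_add (τ : R →+* R) (ε : R →+* F) (a i : ℕ) (f : R) :
    val τ ε (a + i) f = val τ ε a ((⇑τ)^[i] f) := by
  unfold val
  rw [Function.iterate_add_apply]

/-- T1, first part -/
theorem t_run : S_run := by
  intro R F _ _ _ τ ε f
  let J : ℕ →o Ideal R :=
    { toFun := fun k => Ideal.span ((fun j => (⇑τ)^[j] f) '' Set.Iio k)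
      monotone' := fun k l hkl => Ideal.span_mono (Set.image_mono (Set.Iio_subset_Iio hkl)) }
  obtain ⟨k, hk⟩ := WellFoundedGT.monotone_chain_condition J
  refine ⟨k, fun a ha => ?_⟩
  have key : ∀ m, a ≤ m → (∀ i < k, val τ ε (m + i) f = 0) → val τ ε (m + k) f = 0 := by
    intro m _ h
    have h1 : (⇑τ)^[k] f ∈ J (k + 1) :=
      Ideal.subset_span ⟨k, Set.mem_Iio.2 (Nat.lt_succ_self k), rfl⟩
    rw [← hk (k + 1) (Nat.le_succ k)] at h1
    have h2 : J k ≤ RingHom.ker (runHom τ ε m) := by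
      refine Ideal.span_le.2 ?_
      rintro _ ⟨j, hj, rfl⟩
      show (⇑τ)^[j] f ∈ RingHom.ker (runHom τ ε m)
      rw [run_mem, ← run_val_add]
      exact h j hj
    have h3 := h2 h1
    rw [run_mem, ← run_val_add] at h3
    exact h3
  have all : ∀ n, ∀ i < k, val τ ε (a + n + i) f = 0 := by
    intro n
    induction n with
    | zero => exact ha
    | succ n ih =>
      intro i hi
      by_cases h : i + 1 < k
      · have := ih (i + 1) h
        rwa [show a + n + (i + 1) = a + (n + 1) + i by ring] at this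
      · have h1 : i + 1 = k := by omega
        have := key (a + n) (by omega) ih
        rwa [show a + n + k = a + (n + 1) + i by omega] at this
  intro m hm
  have h1 := key m hm (by
    intro i hi
    have := all (m - a) i hi
    rwa [show a + (m - a) + i = m + i by omega] at this)
  by_cases hk0 : k = 0
  · subst hk0
    exact h1
  · have := all (m - a) 0 (Nat.pos_of_ne_zero hk0)
    rwa [show a + (m - a) + 0 = m by omega] at this

/-- the elements with eventually vanishing values -/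
def runJ (τ : R →+* R) (ε : R →+* F) : Ideal R where
  carrier := {f | ∃ N : ℕ, ∀ m ≥ N, val τ ε m f = 0}
  zero_mem' := ⟨0, fun m _ => by rw [← runHom_apply, map_zero]⟩
  add_mem' := by
    rintro f g ⟨N, hN⟩ ⟨N', hN'⟩
    exact ⟨max N N', fun m hm => by
      rw [← runHom_apply, map_add, runHom_apply, runHom_apply, hN m (le_trans (le_max_left _ _) hm),
        hN' m (le_trans (le_max_right _ _) hm), add_zero]⟩
  smul_mem' := by
    rintro c f ⟨N, hN⟩
    exact ⟨N, fun m hm => by
      rw [← runHom_apply, smul_eq_mul, map_mul, runHom_apply τ ε m f, hN m hm, mul_zero]⟩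

theorem run_mem_J (τ : R →+* R) (ε : R →+* F) (f : R) :
    f ∈ runJ τ ε ↔ ∃ N : ℕ, ∀ m ≥ N, val τ ε m f = 0 := Iff.rfl

theorem run_comap (τ : R →+* R) (ε : R →+* F) : (runJ τ ε).comap τ = runJ τ ε := by
  ext f
  rw [Ideal.mem_comap, run_mem_J, run_mem_J]
  have h : ∀ m, val τ ε m (τ f) = val τ ε (m + 1) f := fun m => by
    rw [run_val_add]
    rfl
  constructor
  · rintro ⟨N, hN⟩
    refine ⟨N + 1, fun m hm => ?_⟩
    have := hN (m - 1) (by omega)
    rwa [h, show m - 1 + 1 = m by omega] at this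
  · rintro ⟨N, hN⟩
    exact ⟨N, fun m hm => by rw [h]; exact hN (m + 1) (by omega)⟩

theorem run_radical (τ : R →+* R) (ε : R →+* F) : (runJ τ ε).radical = runJ τ ε := by
  refine le_antisymm ?_ Ideal.le_radical
  rintro f ⟨n, N, hN⟩
  refine ⟨N, fun m hm => ?_⟩
  have := hN m hm
  rw [← runHom_apply, map_pow] at this
  rw [← runHom_apply]
  exact eq_zero_of_pow_eq_zero this

theorem run_uniform [IsNoetherianRing R] (τ : R →+* R) (ε : R →+* F) :
    ∃ N : ℕ, ∀ m ≥ N, runJ τ ε ≤ RingHom.ker (runHom τ ε m) := by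
  classical
  obtain ⟨s, hs⟩ := IsNoetherian.noetherian (runJ τ ε)
  have hmem : ∀ f ∈ s, ∃ N : ℕ, ∀ m ≥ N, val τ ε m f = 0 := by
    intro f hf
    rw [← run_mem_J, ← hs]
    exact Submodule.subset_span hf
  choose! N hN using hmem
  refine ⟨s.sup N, fun m hm => ?_⟩
  rw [← hs]
  refine Submodule.span_le.2 fun f hf => ?_
  show f ∈ RingHom.ker (runHom τ ε m)
  rw [run_mem]
  exact hN f hf m (le_trans (Finset.le_sup (f := N) hf) hm)

/-- T1, second part -/
theorem t_ap : S_ap := by
  intro R F _ _ _ τ ε Λ _ c hc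
  classical
  obtain ⟨N0, hN0⟩ := hc
  obtain ⟨N1, hN1⟩ := run_uniform τ ε
  set J : Ideal R := runJ τ ε with hJ
  have hfin : J.minimalPrimes.Finite := Ideal.finite_minimalPrimes_of_isNoetherianRing R J
  have : Finite J.minimalPrimes := hfin.to_subtype
  -- the permutation of the minimal primes
  have hex : ∀ Q0 : J.minimalPrimes, ∃ P : J.minimalPrimes, (P : Ideal R).comap τ = Q0 := by
    rintro ⟨Q0, hQ0⟩
    have hp : Q0.IsPrime := hQ0.1.1
    have h1 : hfin.toFinset.inf (fun P : Ideal R => P.comap τ) ≤ Q0 := by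
      intro f hf
      have h2 : f ∈ J.comap τ := by
        rw [Ideal.mem_comap, hJ, ← run_radical τ ε, ← Ideal.sInf_minimalPrimes, Ideal.mem_sInf]
        intro P hP
        have h3 : hfin.toFinset.inf (fun P : Ideal R => P.comap τ) ≤ P.comap τ :=
          Finset.inf_le (hfin.mem_toFinset.2 hP)
        exact h3 hf
      rw [hJ, run_comap] at h2
      exact hQ0.1.2 h2
    obtain ⟨P, hP, hPQ⟩ := (Ideal.IsPrime.inf_le' hp).1 h1
    have hP' := hfin.mem_toFinset.1 hP
    have hPp : P.IsPrime := hP'.1.1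
    refine ⟨⟨P, hP'⟩, le_antisymm hPQ ?_⟩
    refine hQ0.2 ⟨Ideal.IsPrime.comap τ, ?_⟩ hPQ
    exact (run_comap τ ε).ge.trans (Ideal.comap_mono hP'.1.2)
  choose s hs using hex
  have hinj : Function.Injective s := by
    intro P Q h
    apply Subtype.ext
    rw [← hs P, ← hs Q, h]
  set σ : Equiv.Perm J.minimalPrimes := Equiv.ofBijective s (Finite.injective_iff_bijective.1 hinj) with hσ
  have hpow : ∀ (k : ℕ) (P : J.minimalPrimes) (f : R),
      (⇑τ)^[k] f ∈ (((σ ^ k) P : J.minimalPrimes) : Ideal R) ↔ f ∈ (P : Ideal R) := by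
    intro k
    induction k with
    | zero =>
      intro P f
      rfl
    | succ k ih =>
      intro P f
      have h1 : ((σ ^ (k + 1)) P) = s ((σ ^ k) P) := by
        rw [pow_succ', Equiv.Perm.mul_apply]
        rfl
      rw [h1, Function.iterate_succ_apply', ← Ideal.mem_comap, hs, ih]
  set T : ℕ := orderOf σ with hT
  have hT1 : 1 ≤ T := orderOf_pos σ
  have hper : ∀ (j : ℕ) (P : J.minimalPrimes) (f : R), f ∈ (P : Ideal R) →
      (⇑τ)^[T * j] f ∈ (P : Ideal R) := by
    intro j P f hf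
    have h1 := (hpow (T * j) P f).2 hf
    rw [pow_mul, hT, pow_orderOf_eq_one, one_pow, Equiv.Perm.one_apply] at h1
    exact h1
  -- the product of the ideals
  have := Fintype.ofFinite Λ
  have hprod : ∏ l, c l ≤ J := by
    intro f hf
    refine ⟨N0, fun m hm => ?_⟩
    obtain ⟨l, hl⟩ := hN0 m hm
    have h1 : c l ≤ RingHom.ker (runHom τ ε m) := fun g hg => (run_mem τ ε m g).2 (hl g hg)
    have h2 : ∏ l, c l ≤ c l := by
      rw [← Finset.mul_prod_erase Finset.univ c (Finset.mem_univ l)]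
      exact Ideal.mul_le_left
    exact (run_mem τ ε m f).1 (h1 (h2 hf))
  refine ⟨T, hT1, fun a => ?_⟩
  set m0 : ℕ := a % T + T * (max N0 N1) with hm0
  have hm0N : max N0 N1 ≤ m0 := by
    have : max N0 N1 ≤ T * max N0 N1 := Nat.le_mul_of_pos_left _ hT1
    omega
  have hker : (RingHom.ker (runHom τ ε m0)).IsPrime := RingHom.ker_isPrime _
  obtain ⟨P, hP, hPk⟩ := Ideal.exists_minimalPrimes_le (hN1 m0 (le_trans (le_max_right _ _) hm0N))
  have hPp : P.IsPrime := hP.1.1
  obtain ⟨l, -, hl⟩ := (Ideal.IsPrime.prod_le hPp).1 (hprod.trans hP.1.2)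
  refine ⟨l, m0, fun m hm hma f hf => ?_⟩
  have h1 : m0 % T = a % T := by rw [hm0, Nat.add_mul_mod_self_left, Nat.mod_mod]
  obtain ⟨j, hj⟩ : ∃ j, m = m0 + T * j := by
    have h2 : m0 ≡ m [MOD T] := by
      unfold Nat.ModEq
      rw [h1, hma]
    obtain ⟨j, hj⟩ := (Nat.modEq_iff_dvd' hm).1 h2
    exact ⟨j, by omega⟩
  rw [hj, run_val_add]
  exact (run_mem τ ε m0 _).1 (hPk (hper j ⟨P, hP⟩ f (hl hf)))

end Pool.Agent.N419.HQ
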