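import Pool.Agent.N419.HQ.Stm

/-!
# Project HQ: long runs of points on rational curves, theorem `t_runs (h : S_hit) : S_runs` (helper803)
-/

set_option autoImplicit false

namespace Pool.Agent.N419.HQ

open Polynomial Matrix

theorem Runs_hom {K : Type} [Field K] {n e : ℕ} {F : MvPolynomial (Fin (n + 1)) K}
    (hF : F.IsHomogeneous e) (c : K) (u : Fin (n + 1) → K) :
    MvPolynomial.eval (fun j => c * u j) F = c ^ e * MvPolynomial.eval u F := by
  rw [MvPolynomial.eval_eq', MvPolynomial.eval_eq', Finset.mul_sum]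
  refine Finset.sum_congr rfl fun d hd => ?_
  have hdeg : ∑ i, d i = e := by
    by_contra hne
    rw [MvPolynomial.mem_support_iff] at hd
    apply hd
    apply hF.coeff_eq_zero
    rwa [Finsupp.degree_eq_sum]
  have h1 : ∏ i, (c * u i) ^ d i = c ^ e * ∏ i, u i ^ d i := by
    simp only [mul_pow]
    rw [Finset.prod_mul_distrib, Finset.prod_pow_eq_pow_sum, hdeg]
  rw [h1]
  ring

theorem Runs_eval {K : Type} [Field K] {n : ℕ} (F : MvPolynomial (Fin (n + 1)) K)
    (ρ : Fin (n + 1) → K[X]) (a : K) :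
    (MvPolynomial.aeval ρ F).eval a = MvPolynomial.eval (fun j => (ρ j).eval a) F := by
  rw [← coe_evalRingHom, MvPolynomial.aeval_def, MvPolynomial.eval₂_comp_left]
  have h1 : (evalRingHom a).comp (algebraMap K K[X]) = RingHom.id K := by
    ext x
    simp
  rw [h1]
  rfl

theorem Runs_large {K : Type} [Field K] [CharZero K] {f : K[X]} (hf : f ≠ 0) :
    ∃ N : ℕ, ∀ m : ℕ, N ≤ m → f.eval (m : K) ≠ 0 := by
  classical
  have h1 : Set.Finite {m : ℕ | f.eval (m : K) = 0} := by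
    have h2 : Set.Finite {a : K | f.IsRoot a} := by
      refine (f.roots.toFinset.finite_toSet).subset fun a ha => ?_
      rw [Finset.mem_coe, Multiset.mem_toFinset, mem_roots hf]
      exact ha
    exact Set.Finite.preimage (f := fun m : ℕ => (m : K)) (Nat.cast_injective.injOn) h2
  obtain ⟨N, hN⟩ := h1.bddAbove
  refine ⟨N + 1, fun m hm h0 => ?_⟩
  have := hN h0
  omega

/-- the curve attached to quotients of polynomials -/
noncomputable def Runs_rho {K : Type} [Field K] {n : ℕ} {L : Finset (K[X] × K[X])}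
    (φ : Fin (n + 1) → L) (q : Fin (n + 1)) : K[X] :=
  (φ q).1.1 * ∏ q' ∈ Finset.univ.erase q, (φ q').1.2

theorem t_runs (h : S_hit) : S_runs := by
  classical
  intro K _ _ n FF G hFF x hx hP
  obtain ⟨N₀, hN₀⟩ := hx
  choose P hP0 NP hNP using hP
  obtain ⟨L, hL⟩ := h K (Fin (n + 1) × Fin (n + 1)) (fun i => P i.1 i.2) (fun i => hP0 i.1 i.2)
  -- the good curves
  let Good : (Fin (n + 1) → L) → Prop := fun φ =>
    Runs_rho φ ≠ 0 ∧ ∀ F ∈ FF, MvPolynomial.aeval (Runs_rho φ) F = 0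
  have hfin : Finite {φ : Fin (n + 1) → L // Good φ} := inferInstance
  obtain ⟨s, ⟨eqv⟩⟩ := Finite.exists_equiv_fin {φ : Fin (n + 1) → L // Good φ}
  -- the bad curves are left
  have hbad : ∃ N₁ : ℕ, ∀ m : ℕ, N₁ ≤ m → ∀ φ : Fin (n + 1) → L,
      (∃ F ∈ FF, MvPolynomial.aeval (Runs_rho φ) F ≠ 0) →
        ∃ F ∈ FF, (MvPolynomial.aeval (Runs_rho φ) F).eval (m : K) ≠ 0 := by
    have h1 : ∀ φ : Fin (n + 1) → L, ∃ N₁ : ℕ, ∀ m : ℕ, N₁ ≤ m →
      (∃ F ∈ FF, MvPolynomial.aeval (Runs_rho φ) F ≠ 0) →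
        ∃ F ∈ FF, (MvPolynomial.aeval (Runs_rho φ) F).eval (m : K) ≠ 0 := by
      intro φ
      by_cases hφ : ∃ F ∈ FF, MvPolynomial.aeval (Runs_rho φ) F ≠ 0
      · obtain ⟨F, hF, hne⟩ := hφ
        obtain ⟨N₁, hN₁⟩ := Runs_large hne
        exact ⟨N₁, fun m hm _ => ⟨F, hF, hN₁ m hm⟩⟩
      · exact ⟨0, fun m _ h2 => absurd h2 hφ⟩
    choose N₁ hN₁ using h1
    refine ⟨Finset.univ.sup N₁, fun m hm φ hφ => hN₁ φ m (le_trans ?_ hm) hφ⟩
    exact Finset.le_sup (Finset.mem_univ φ)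
  obtain ⟨N₁, hN₁⟩ := hbad
  refine ⟨s, fun l => Runs_rho (eqv.symm l).1, fun l => (eqv.symm l).2.1,
    fun l => (eqv.symm l).2.2, fun k B => ?_⟩
  set N₂ : ℕ := Finset.univ.sup fun i : Fin (n + 1) × Fin (n + 1) => NP i.1 i.2 with hN₂
  obtain ⟨t, ht, hrun⟩ := hL k (max B (max N₀ (max N₁ N₂)))
  refine ⟨t, le_trans (le_max_left _ _) ht, fun m hm1 hm2 => ?_⟩
  have hmm : max B (max N₀ (max N₁ N₂)) ≤ m := le_trans ht hm1
  have hmN₀ : N₀ ≤ m := le_trans (le_trans (le_max_left _ _) (le_max_right _ _)) hmm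
  have hmN₁ : N₁ ≤ m := le_trans (le_trans (le_trans (le_max_left _ _) (le_max_right _ _))
    (le_max_right _ _)) hmm
  have hmN₂ : N₂ ≤ m := le_trans (le_trans (le_trans (le_max_right _ _) (le_max_right _ _))
    (le_max_right _ _)) hmm
  by_cases hG : MvPolynomial.eval (x m) G = 0
  · exact Or.inl hG
  by_cases hx0 : x m = 0
  · exact Or.inr (Or.inl hx0)
  right; right
  obtain ⟨p, hp⟩ : ∃ p, x m p ≠ 0 := by
    by_contra hcon
    push Not at hcon
    exact hx0 (funext hcon)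
  have hq : ∀ q, ∃ c : L, c.1.2.eval (m : K) ≠ 0 ∧
      c.1.2.eval (m : K) * (x m q / x m p) = c.1.1.eval (m : K) := by
    intro q
    have hNq : NP p q ≤ m := le_trans
      (Finset.le_sup (f := fun i : Fin (n + 1) × Fin (n + 1) => NP i.1 i.2)
        (Finset.mem_univ (p, q))) hmN₂
    obtain ⟨c, hc, h2, h3⟩ := hrun m hm1 hm2 (p, q) _ (hNP p q m hNq hG hp)
    exact ⟨⟨c, hc⟩, h2, h3⟩
  choose φ hφ1 hφ2 using hq
  set D : K := ∏ q, (φ q).1.2.eval (m : K) with hD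
  have hD0 : D ≠ 0 := Finset.prod_ne_zero_iff.2 fun q _ => hφ1 q
  have hρ : ∀ q, (Runs_rho φ q).eval (m : K) = D * (x m q / x m p) := by
    intro q
    unfold Runs_rho
    rw [eval_mul, eval_prod, ← hφ2 q, hD, ← Finset.mul_prod_erase Finset.univ _ (Finset.mem_univ q)]
    ring
  have hxρ : x m = fun j => x m p / D * (Runs_rho φ j).eval (m : K) := by
    funext j
    rw [hρ j]
    field_simp
  have hgood : Good φ := by
    refine ⟨fun h0 => ?_, fun F hF => ?_⟩
    · have h1 := hρ p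
      rw [h0, Pi.zero_apply, eval_zero, div_self hp, mul_one] at h1
      exact hD0 h1.symm
    · by_contra hne
      obtain ⟨F', hF', hne'⟩ := hN₁ m hmN₁ φ ⟨F, hF, hne⟩
      obtain ⟨e, he⟩ := hFF F' hF'
      apply hne'
      rw [Runs_eval]
      have h1 := hN₀ m hmN₀ F' hF'
      rw [hxρ, Runs_hom he] at h1
      exact (mul_eq_zero.1 h1).resolve_left (pow_ne_zero _ (div_ne_zero hp hD0))
  refine ⟨eqv ⟨φ, hgood⟩, x m p / D, ?_⟩
  simp only [Equiv.symm_apply_apply]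
  exact hxρ

end Pool.Agent.N419.HQ
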