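import Pool.Agent.N419.HQ.Stm

/-!
# T4: specialisation of algebraic functions at large integers
-/

set_option autoImplicit false

namespace Pool.Agent.N419.HQ

open Polynomial

/-- the evaluation at `a` extends to integral extensions of `ℂ[X]` -/
theorem spec_lift (R' : Type) [CommRing R'] [Algebra ℂ[X] R'] [Algebra.IsIntegral ℂ[X] R']
    (hinj : Function.Injective (algebraMap ℂ[X] R')) (a : ℂ) :
    ∃ φ : R' →+* ℂ, ∀ p : ℂ[X], φ (algebraMap ℂ[X] R' p) = p.eval a := by
  let P : Ideal ℂ[X] := RingHom.ker (evalRingHom a)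
  have hP : P.IsMaximal := RingHom.ker_isMaximal_of_surjective _ fun z => ⟨C z, by simp⟩
  obtain ⟨Q, hQ, hQc⟩ := Ideal.exists_ideal_over_maximal_of_isIntegral (S := R') P (by
    rw [(RingHom.injective_iff_ker_eq_bot _).1 hinj]
    exact bot_le)
  let instF : Field (R' ⧸ Q) := Ideal.Quotient.field Q
  let g : ℂ →+* R' ⧸ Q := (Ideal.Quotient.mk Q).comp ((algebraMap ℂ[X] R').comp C)
  have hcomm : ∀ p : ℂ[X], Ideal.Quotient.mk Q (algebraMap ℂ[X] R' p) = g (p.eval a) := by
    intro p
    have h1 : p - C (p.eval a) ∈ Q.comap (algebraMap ℂ[X] R') := by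
      rw [hQc]
      change evalRingHom a (p - C (p.eval a)) = 0
      simp
    have h2 : algebraMap ℂ[X] R' (p - C (p.eval a)) ∈ Q := h1
    rw [map_sub] at h2
    exact Ideal.Quotient.eq.2 h2
  let instA : Algebra ℂ (R' ⧸ Q) := g.toAlgebra
  have hg : algebraMap ℂ (R' ⧸ Q) = g := rfl
  have hint : Algebra.IsIntegral ℂ (R' ⧸ Q) := by
    refine ⟨fun x => ?_⟩
    obtain ⟨r, rfl⟩ := Ideal.Quotient.mk_surjective x
    obtain ⟨f, hf, hr⟩ := Algebra.IsIntegral.isIntegral (R := ℂ[X]) r
    refine ⟨f.map (evalRingHom a), hf.map _, ?_⟩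
    rw [eval₂_map, hg]
    have h1 : g.comp (evalRingHom a) = (Ideal.Quotient.mk Q).comp (algebraMap ℂ[X] R') := by
      exact RingHom.ext fun p => (hcomm p).symm
    rw [h1, ← hom_eval₂, hr, map_zero]
  have hbij := IsAlgClosed.algebraMap_bijective_of_isIntegral (k := ℂ) (K := R' ⧸ Q)
  let e : ℂ ≃+* R' ⧸ Q := RingEquiv.ofBijective (algebraMap ℂ (R' ⧸ Q)) hbij
  refine ⟨(e.symm : R' ⧸ Q →+* ℂ).comp (Ideal.Quotient.mk Q), fun p => ?_⟩
  rw [RingHom.comp_apply, hcomm]
  exact e.symm_apply_apply (p.eval a)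

/-- T4 -/
theorem t_spec : S_spec := by
  classical
  intro E _ _ hinj halg ι _ y
  have := Fintype.ofFinite ι
  obtain ⟨h, h0, hint⟩ := Algebra.IsAlgebraic.exists_integral_multiples ℂ[X]
    (Finset.univ.image y)
  -- the roots
  obtain ⟨N, hN⟩ : ∃ N : ℕ, ∀ m : ℕ, N ≤ m → h.eval (m : ℂ) ≠ 0 := by
    have h1 : ((fun m : ℕ => (m : ℂ)) ⁻¹' (h.roots.toFinset : Set ℂ)).Finite :=
      (h.roots.toFinset.finite_toSet).preimage (Nat.cast_injective.injOn)
    obtain ⟨B, hB⟩ := h1.bddAbove
    refine ⟨B + 1, fun m hm h2 => ?_⟩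
    have h3 : m ∈ (fun m : ℕ => (m : ℂ)) ⁻¹' (h.roots.toFinset : Set ℂ) := by
      simp only [Set.mem_preimage, Finset.mem_coe, Multiset.mem_toFinset]
      exact (mem_roots h0).2 h2
    have := hB h3
    omega
  let R' := integralClosure ℂ[X] E
  have hR' : Function.Injective (algebraMap ℂ[X] R') := by
    intro p q hpq
    apply hinj
    exact congrArg (fun z : R' => (z : E)) hpq
  have hRE : Function.Injective (algebraMap R' E) := Subtype.val_injective
  let h' : R' := algebraMap ℂ[X] R' h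
  have hh0 : h' ≠ 0 := fun h1 => h0 (hR' (h1.trans (map_zero _).symm))
  let x : ι → R' := fun i => ⟨h • y i, hint _ (Finset.mem_image_of_mem y (Finset.mem_univ i))⟩
  refine ⟨N, fun m hm => ?_⟩
  obtain ⟨φ, hφ⟩ := spec_lift R' hR' (m : ℂ)
  have hu1 : IsUnit (φ h') := by
    rw [hφ]
    exact (isUnit_iff_ne_zero).2 (hN m hm)
  have hu2 : IsUnit (algebraMap R' E h') := by
    rw [isUnit_iff_ne_zero]
    exact fun h1 => hh0 (hRE (h1.trans (map_zero _).symm))
  let S := Localization.Away h'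
  let ψ : S →+* ℂ := IsLocalization.Away.lift h' hu1
  let Λ : S →+* E := IsLocalization.Away.lift h' hu2
  have hψ : ∀ r : R', ψ (algebraMap R' S r) = φ r := fun r => IsLocalization.Away.lift_eq h' hu1 r
  have hΛ : ∀ r : R', Λ (algebraMap R' S r) = algebraMap R' E r :=
    fun r => IsLocalization.Away.lift_eq h' hu2 r
  have hΛi : Function.Injective Λ := by
    rw [injective_iff_map_eq_zero]
    intro s hs
    obtain ⟨⟨r, d⟩, hrd⟩ := IsLocalization.surj (Submonoid.powers h') s
    have h1 : algebraMap R' E r = 0 := by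
      rw [← hΛ, ← hrd, map_mul, hs, zero_mul]
    have h2 : r = 0 := hRE (h1.trans (map_zero _).symm)
    rw [h2, map_zero] at hrd
    have h3 : IsUnit (algebraMap R' S d) := IsLocalization.map_units S d
    exact (h3.mul_left_eq_zero).1 hrd
  let z : ι → S := fun i => algebraMap R' S (x i) * IsLocalization.Away.invSelf h'
  have hz : ∀ i, algebraMap R' S h' * z i = algebraMap R' S (x i) := by
    intro i
    change algebraMap R' S h' * (algebraMap R' S (x i) * IsLocalization.Away.invSelf h') = _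
    have h1 := IsLocalization.Away.mul_invSelf (S := S) h'
    rw [mul_left_comm, h1, mul_one]
  have hΛz : ∀ i, Λ (z i) = y i := by
    intro i
    have h1 := congrArg Λ (hz i)
    rw [map_mul, hΛ, hΛ] at h1
    have h2 : algebraMap R' E (x i) = algebraMap R' E h' * y i := by
      change h • y i = algebraMap ℂ[X] E h * y i
      rw [Algebra.smul_def]
    rw [h2] at h1
    exact hu2.mul_left_cancel h1
  let θ : MvPolynomial ι ℂ[X] →+* S :=
    MvPolynomial.eval₂Hom ((algebraMap R' S).comp (algebraMap ℂ[X] R')) z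
  refine ⟨fun i => ψ (z i), fun f hf => ?_⟩
  have h1 : Λ.comp θ = (MvPolynomial.aeval y : MvPolynomial ι ℂ[X] →ₐ[ℂ[X]] E).toRingHom := by
    apply MvPolynomial.ringHom_ext
    · intro p
      simp only [RingHom.comp_apply, θ, MvPolynomial.coe_eval₂Hom, MvPolynomial.eval₂_C, hΛ]
      change algebraMap R' E (algebraMap ℂ[X] R' p) = MvPolynomial.aeval y (MvPolynomial.C p)
      rw [MvPolynomial.aeval_C]
      rfl
    · intro i
      simp only [RingHom.comp_apply, θ, MvPolynomial.coe_eval₂Hom, MvPolynomial.eval₂_X, hΛz]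
      change y i = MvPolynomial.aeval y (MvPolynomial.X i)
      rw [MvPolynomial.aeval_X]
  have h2 : ψ.comp θ = MvPolynomial.eval₂Hom (evalRingHom (m : ℂ)) fun i => ψ (z i) := by
    apply MvPolynomial.ringHom_ext
    · intro p
      simp only [RingHom.comp_apply, θ, MvPolynomial.coe_eval₂Hom, MvPolynomial.eval₂_C, hψ, hφ]
      rfl
    · intro i
      simp only [RingHom.comp_apply, θ, MvPolynomial.coe_eval₂Hom, MvPolynomial.eval₂_X]
  have h3 : θ f = 0 := by
    apply hΛi
    rw [map_zero]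
    have h4 := congrArg (fun χ : MvPolynomial ι ℂ[X] →+* E => χ f) h1
    exact h4.trans hf
  have h4 := congrArg (fun χ : MvPolynomial ι ℂ[X] →+* ℂ => χ f) h2
  have h5 : ψ (θ f) = MvPolynomial.eval₂ (evalRingHom (m : ℂ)) (fun i => ψ (z i)) f := h4
  rw [← h5, h3, map_zero]

end Pool.Agent.N419.HQ
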