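import Pool.Agent.N419.HQ.Core
import Pool.Agent.N419.HQ.Main
import Pool.Agent.N419.HQ.Orb
import Pool.Agent.N419.HQ.Cur
import Pool.Agent.N419.HQ.Run
import Pool.Agent.N419.HQ.Dens
import Pool.Agent.N419.HQ.Null
import Pool.Agent.N419.HQ.Spec
import Pool.Agent.N419.HQ.Rel
import Pool.Agent.N419.HQ.Grp
import Pool.Agent.N419.HQ.Hit
import Pool.Agent.N419.HQ.Runs
import Pool.Agent.N419.HQ.Line

/-!
P-recursive sequences of points of varieties without rational curves: assembly.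
-/

set_option autoImplicit false

namespace Pool.Agent.N419.HQ

open Polynomial Matrix Pool.Agent.TH717.GO

section

variable {k : Type} [Field k] {n : ℕ}

theorem fin_aeval_smul {K : Type} [Field K] [Algebra k K] {e : ℕ}
    (f : MvPolynomial (Fin (n + 1)) k) (hf : f.IsHomogeneous e) (s : K) (c : Fin (n + 1) → K) :
    MvPolynomial.aeval (s • c) f = s ^ e * MvPolynomial.aeval c f := by
  rw [MvPolynomial.aeval_def, MvPolynomial.aeval_def, MvPolynomial.eval₂_eq',
    MvPolynomial.eval₂_eq', Finset.mul_sum]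
  refine Finset.sum_congr rfl fun d hd => ?_
  have h1 : ∑ i, d i = e := by
    have := hf (MvPolynomial.mem_support_iff.mp hd)
    rw [Finsupp.weight_apply, Finsupp.sum_fintype] at this
    · simpa using this
    · simp
  simp only [Pi.smul_apply, smul_eq_mul, mul_pow, Finset.prod_mul_distrib,
    Finset.prod_pow_eq_pow_sum, h1]
  ring

/-- the classes of a shifted sequence -/
theorem fin_class {T N a m : ℕ} (hT : 1 ≤ T) (h : (N + m) % T = a % T) :
    m % T = (a + N * (T - 1)) % T := by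
  have h1 : (m + N) ≡ (a + N * (T - 1)) + N [MOD T] := by
    have h2 : (a + N * (T - 1)) + N = a + N * T := by
      obtain ⟨t, rfl⟩ : ∃ t, T = t + 1 := ⟨T - 1, by omega⟩
      simp only [Nat.add_sub_cancel]
      ring
    rw [h2, add_comm m N]
    have h3 : a + N * T ≡ a [MOD T] := by
      simp [Nat.ModEq]
    exact (show N + m ≡ a [MOD T] from h).trans h3.symm
  exact Nat.ModEq.add_right_cancel' N h1

theorem bound_core [NumberField k] (σ : k →+* ℂ) (FF : Set (MvPolynomial (Fin (n + 1)) k))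
    (hhom : ∀ F ∈ FF, ∃ e, F.IsHomogeneous e) (hno : NoRatC σ FF) (r : ℕ) :
    ∃ B : ℕ, 1 ≤ B ∧ ∀ (K : Type) [Field K] [NumberField K] [Algebra k K]
      (A : Matrix (Fin r) (Fin r) K[X]), (∀ m : ℕ, A.det.eval (m : K) ≠ 0) →
      ∀ (M : Matrix (Fin (n + 1)) (Fin r) K) (v : Fin r → K),
      (∃ N : ℕ, ∀ m ≥ N, ∀ F ∈ FF,
        MvPolynomial.aeval (M.mulVec ((sys A m).mulVec v)) F = 0) →
      ∃ c : Fin B → Fin (n + 1) → K, ∃ T : ℕ, 1 ≤ T ∧ ∀ a : ℕ, ∃ i, ∃ N : ℕ, ∀ m ≥ N,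
        m % T = a % T → ∃ s : K, M.mulVec ((sys A m).mulVec v) = s • c i := by
  obtain ⟨B, hB, hO⟩ := orbB_of_noRat σ FF hhom hno r
  refine ⟨B, hB, fun K _ _ _ A hA M v hX => ?_⟩
  have τ : K →+* ℂ := (IsAlgClosed.lift : K →ₐ[ℚ] ℂ).toRingHom
  refine main_line (t_core t_null t_spec t_embed t_grp) t_rel t_bd t_desc (t_runs t_hit)
    (t_line t_run t_ap) τ ((MvPolynomial.map (algebraMap k K)) '' FF) ?_ ?_ hB ?_ A hA M v ?_
  · rintro _ ⟨F, hF, rfl⟩
    obtain ⟨e, he⟩ := hhom F hF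
    exact ⟨e, he.map _⟩
  · have h := hO (τ.comp (algebraMap k K))
    have h2 : (MvPolynomial.map τ) '' ((MvPolynomial.map (algebraMap k K)) '' FF) =
        (MvPolynomial.map (τ.comp (algebraMap k K))) '' FF := by
      rw [Set.image_image]
      refine Set.image_congr fun F _ => ?_
      rw [MvPolynomial.map_map]
    rw [h2]
    exact h
  · intro ρ hρ
    refine noCur_of_noRatC σ FF hno K ρ fun F hF => ?_
    have h := hρ _ ⟨F, hF, rfl⟩
    rw [MvPolynomial.aeval_def, MvPolynomial.eval₂_map] at h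
    rw [MvPolynomial.aeval_def]
    exact h
  · obtain ⟨N, hN⟩ := hX
    refine ⟨N, ?_⟩
    rintro m hm _ ⟨F, hF, rfl⟩
    rw [MvPolynomial.eval_map]
    exact hN m hm F hF

/-- sequences given by systems -/
theorem fin_sys (hsys : S_sys) [NumberField k] (σ : k →+* ℂ)
    (FF : Set (MvPolynomial (Fin (n + 1)) k))
    (hhom : ∀ F ∈ FF, ∃ e, F.IsHomogeneous e) (hno : NoRatC σ FF) (r : ℕ) :
    ∃ B : ℕ, ∀ (K : Type) [Field K] [NumberField K] [Algebra k K] (D : K[X])
      (A : Matrix (Fin r) (Fin r) K[X]) (M : Matrix (Fin (n + 1)) (Fin r) K) (u : ℕ → Fin r → K),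
      D ≠ 0 → A.det ≠ 0 →
      (∀ m : ℕ, D.eval (m : K) • u (m + 1) = (A.map fun p => p.eval (m : K)).mulVec (u m)) →
      (∃ N : ℕ, ∀ m ≥ N, ∀ F ∈ FF, MvPolynomial.aeval (M.mulVec (u m)) F = 0) →
      ∃ c : Fin B → Fin (n + 1) → K, ∃ T : ℕ, 1 ≤ T ∧ ∀ a : ℕ, ∃ i, ∃ N : ℕ, ∀ m ≥ N,
        m % T = a % T → ∃ s : K, M.mulVec (u m) = s • c i := by
  obtain ⟨B, hB, h⟩ := bound_core σ FF hhom hno r
  refine ⟨B, fun K _ _ _ D A M u hD hA hu hX => ?_⟩
  obtain ⟨N, A', v, s, hA', hs, hus⟩ := hsys K r D A u hD hA hu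
  obtain ⟨N0, hN0⟩ := hX
  obtain ⟨c, T, hT, hc⟩ := h K A' hA' M v ⟨N0, fun m hm F hF => by
    obtain ⟨e, he⟩ := hhom F hF
    have h1 := hN0 (N + m) (by omega) F hF
    rw [hus, Matrix.mulVec_smul, fin_aeval_smul F he] at h1
    exact (mul_eq_zero.1 h1).resolve_left (pow_ne_zero e (hs m))⟩
  refine ⟨c, T, hT, fun a => ?_⟩
  obtain ⟨i, N1, hN1⟩ := hc (a + N * (T - 1))
  refine ⟨i, N + N1, fun m hm hma => ?_⟩
  obtain ⟨m, rfl⟩ : ∃ m', m = N + m' := ⟨m - N, by omega⟩
  obtain ⟨t, ht⟩ := hN1 m (by omega) (fin_class hT hma)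
  refine ⟨s m * t, ?_⟩
  rw [hus, Matrix.mulVec_smul, ht, smul_smul]

/-- P-recursive sequences -/
theorem fin_seq (hprec : S_prec) [NumberField k] (FF : Set (MvPolynomial (Fin (n + 1)) k))
    (hhom : ∀ F ∈ FF, ∃ e, F.IsHomogeneous e)
    (h : ∀ r : ℕ, ∃ B : ℕ, ∀ (K : Type) [Field K] [NumberField K] [Algebra k K] (D : K[X])
      (A : Matrix (Fin r) (Fin r) K[X]) (M : Matrix (Fin (n + 1)) (Fin r) K) (u : ℕ → Fin r → K),
      D ≠ 0 → A.det ≠ 0 →
      (∀ m : ℕ, D.eval (m : K) • u (m + 1) = (A.map fun p => p.eval (m : K)).mulVec (u m)) →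
      (∃ N : ℕ, ∀ m ≥ N, ∀ F ∈ FF, MvPolynomial.aeval (M.mulVec (u m)) F = 0) →
      ∃ c : Fin B → Fin (n + 1) → K, ∃ T : ℕ, 1 ≤ T ∧ ∀ a : ℕ, ∃ i, ∃ N : ℕ, ∀ m ≥ N,
        m % T = a % T → ∃ s : K, M.mulVec (u m) = s • c i)
    (K : Type) [Field K] [NumberField K] [Algebra k K] (x : ℕ → Fin (n + 1) → K)
    (hx : ∀ j, PRec fun m => x m j)
    (hX : ∃ N : ℕ, ∀ m ≥ N, ∀ F ∈ FF, MvPolynomial.aeval (x m) F = 0) :
    ∃ T : ℕ, 1 ≤ T ∧ ∀ a : ℕ, ∃ c : Fin (n + 1) → K, ∃ N : ℕ, ∀ m ≥ N,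
      m % T = a % T → ∃ s : K, x m = s • c := by
  obtain ⟨N, r, A, M, v, s, hA, hs, hxs⟩ := hprec K (n + 1) x hx
  obtain ⟨B, hB⟩ := h r
  obtain ⟨N0, hN0⟩ := hX
  have hA0 : A.det ≠ 0 := by
    intro h0
    have := hA 0
    rw [h0] at this
    simp at this
  obtain ⟨c, T, hT, hc⟩ := hB K 1 A M (fun m => (sys A m).mulVec v) one_ne_zero hA0 (by
    intro m
    rw [eval_one, one_smul, sys, ← Matrix.mulVec_mulVec]) ⟨N0, fun m hm F hF => by
    obtain ⟨e, he⟩ := hhom F hF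
    have h1 := hN0 (N + m) (by omega) F hF
    rw [hxs, fin_aeval_smul F he] at h1
    exact (mul_eq_zero.1 h1).resolve_left (pow_ne_zero e (hs m))⟩
  refine ⟨T, hT, fun a => ?_⟩
  obtain ⟨i, N1, hN1⟩ := hc (a + N * (T - 1))
  refine ⟨c i, N + N1, fun m hm hma => ?_⟩
  obtain ⟨m, rfl⟩ : ∃ m', m = N + m' := ⟨m - N, by omega⟩
  obtain ⟨t, ht⟩ := hN1 m (by omega) (fin_class hT hma)
  refine ⟨s m * t, ?_⟩
  rw [hxs, ht, smul_smul]

theorem fin_shift_dens {S : Set ℕ} (N : ℕ) (hS : PosDens S) : PosDens {m | N + m ∈ S} := by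
  obtain ⟨δ, hδ, h⟩ := hS
  refine ⟨δ / 2, by positivity, fun L => ?_⟩
  obtain ⟨L1, hL1⟩ := exists_nat_gt (2 * (N : ℝ) / δ)
  obtain ⟨a, l, hl, hc⟩ := h (max (L + N) L1)
  have hlL : L ≤ l := le_trans (by omega) hl
  have hlL1 : L1 ≤ l := le_trans (le_max_right _ _) hl
  have hfin : ({m | N + m ∈ S} ∩ Set.Ico (a - N) (a - N + l)).Finite :=
    (Set.finite_Ico _ _).inter_of_right _
  refine ⟨a - N, l, hlL, ?_⟩
  have hsub : S ∩ Set.Ico a (a + l) ⊆ (Set.Ico 0 N) ∪
      ((fun m => N + m) '' ({m | N + m ∈ S} ∩ Set.Ico (a - N) (a - N + l))) := by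
    rintro m ⟨hm, hm2⟩
    rw [Set.mem_Ico] at hm2
    by_cases h1 : m < N
    · left
      exact ⟨by omega, h1⟩
    · right
      refine ⟨m - N, ⟨?_, ?_⟩, by simp only; omega⟩
      · show N + (m - N) ∈ S
        rw [show N + (m - N) = m by omega]
        exact hm
      · rw [Set.mem_Ico]
        omega
  have h1 : (S ∩ Set.Ico a (a + l)).ncard ≤
      N + ({m | N + m ∈ S} ∩ Set.Ico (a - N) (a - N + l)).ncard := by
    refine (Set.ncard_le_ncard hsub ((Set.finite_Ico 0 N).union (hfin.image _))).trans ?_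
    refine (Set.ncard_union_le _ _).trans ?_
    have h2 : (Set.Ico 0 N).ncard = N := by
      rw [Set.ncard_eq_toFinset_card']
      simp
    rw [h2]
    exact Nat.add_le_add_left (Set.ncard_image_le hfin) N
  have h2 : ((S ∩ Set.Ico a (a + l)).ncard : ℝ) ≤
      N + ({m | N + m ∈ S} ∩ Set.Ico (a - N) (a - N + l)).ncard := by
    exact_mod_cast h1
  have h3 : 2 * (N : ℝ) ≤ δ * l := by
    have h4 : 2 * (N : ℝ) / δ ≤ l := hL1.le.trans (by exact_mod_cast hlL1)
    rw [div_le_iff₀ hδ] at h4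
    linarith
  nlinarith

/-- arbitrary P-recursive sequences -/
theorem fin_dens (hprec : S_prec) (hsub : S_sub) [NumberField k] (σ : k →+* ℂ)
    (FF : Set (MvPolynomial (Fin (n + 1)) k))
    (hhom : ∀ F ∈ FF, ∃ e, F.IsHomogeneous e) (hno : NoRatC σ FF)
    (K : Type) [Field K] [NumberField K] [Algebra k K] (x : ℕ → Fin (n + 1) → K)
    (hx : ∀ j, PRec fun m => x m j) :
    ∃ T : ℕ, 1 ≤ T ∧ ∀ a : ℕ, (∃ c : Fin (n + 1) → K, ∃ N : ℕ, ∀ m ≥ N,
      m % T = a % T → ∃ s : K, x m = s • c) ∨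
      ¬ PosDens {m : ℕ | m % T = a % T ∧ x m ≠ 0 ∧ ∀ F ∈ FF, MvPolynomial.aeval (x m) F = 0} := by
  classical
  obtain ⟨N, r, A, M, v, s, hA, hs, hxs⟩ := hprec K (n + 1) x hx
  obtain ⟨B, hB, hb⟩ := bound_core σ FF hhom hno r
  let I : Ideal (MvPolynomial (Fin r × Fin r) K[X]) := Ideal.span
    ((fun F => sb M v (MvPolynomial.map (algebraMap k K[X]) F)) '' FF)
  have hval : ∀ (m : ℕ) (F : MvPolynomial (Fin (n + 1)) k),
      val (shift A) (ev 0 1) m (sb M v (MvPolynomial.map (algebraMap k K[X]) F)) =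
        MvPolynomial.aeval (M.mulVec ((sys A m).mulVec v)) F := by
    intro m F
    rw [val_sys, core_ev_sb, MvPolynomial.eval₂_map, MvPolynomial.aeval_def]
    congr 1
    ext z
    simp [Polynomial.algebraMap_apply]
  have hI : ∀ m, (∀ f ∈ I, val (shift A) (ev 0 1) m f = 0) ↔
      ∀ F ∈ FF, MvPolynomial.aeval (M.mulVec ((sys A m).mulVec v)) F = 0 := by
    intro m
    constructor
    · intro h F hF
      rw [← hval]
      exact h _ (Ideal.subset_span ⟨F, hF, rfl⟩)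
    · intro h f hf
      have hle : I ≤ RingHom.ker ((ev 0 1 : MvPolynomial (Fin r × Fin r) K[X] →+* K).comp
          ((shift A) ^ m)) := by
        rw [Ideal.span_le]
        rintro _ ⟨F, hF, rfl⟩
        rw [SetLike.mem_coe, RingHom.mem_ker, RingHom.comp_apply, RingHom.coe_pow]
        have h2 := hval m F
        rw [h F hF] at h2
        exact h2
      have h2 := hle hf
      rw [RingHom.mem_ker, RingHom.comp_apply, RingHom.coe_pow] at h2
      exact h2
  obtain ⟨T, hT, hcl⟩ := t_dens _ _ (shift A) (ev 0 1) I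
  -- the classes on which all points are on the variety
  have h1 : ∀ a : ℕ, (∃ T' : ℕ, 1 ≤ T' ∧ ∀ a' : ℕ, ∃ c : Fin (n + 1) → K, ∃ N' : ℕ, ∀ j ≥ N',
      j % T' = a' % T' → ∃ t : K, M.mulVec ((sys A (a + T * j)).mulVec v) = t • c) ∨
      ¬ PosDens {m : ℕ | m % T = a % T ∧ ∀ f ∈ I, val (shift A) (ev 0 1) m f = 0} := by
    intro a
    rcases hcl a with ⟨N1, hN1⟩ | h2
    · left
      obtain ⟨A', hA', hs'⟩ := hsub K r A hA T a hT
      obtain ⟨c, T', hT', hc⟩ := hb K A' hA' M ((sys A a).mulVec v) ⟨N1, fun m hm F hF => by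
        have h3 := (hI (a + T * m)).1 (hN1 (a + T * m) (by nlinarith) (by simp)) F hF
        rw [hs', ← Matrix.mulVec_mulVec] at h3
        exact h3⟩
      refine ⟨T', hT', fun a' => ?_⟩
      obtain ⟨i, N2, hN2⟩ := hc a'
      refine ⟨c i, N2, fun j hj hja => ?_⟩
      obtain ⟨t, ht⟩ := hN2 j hj hja
      refine ⟨t, ?_⟩
      rw [hs', ← Matrix.mulVec_mulVec]
      exact ht
    · exact Or.inr h2
  -- one modulus
  let Tf : ℕ → ℕ := fun a => if h : (∃ T' : ℕ, 1 ≤ T' ∧ ∀ a' : ℕ, ∃ c : Fin (n + 1) → K,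
    ∃ N' : ℕ, ∀ j ≥ N', j % T' = a' % T' →
      ∃ t : K, M.mulVec ((sys A (a + T * j)).mulVec v) = t • c) then h.choose else 1
  have hTf1 : ∀ a, 1 ≤ Tf a := by
    intro a
    simp only [Tf]
    split_ifs with h
    · exact h.choose_spec.1
    · exact le_rfl
  have hTf2 : ∀ a, PosDens {m : ℕ | m % T = a % T ∧
      ∀ f ∈ I, val (shift A) (ev 0 1) m f = 0} → ∀ a' : ℕ, ∃ c : Fin (n + 1) → K,
    ∃ N' : ℕ, ∀ j ≥ N', j % Tf a = a' % Tf a →
      ∃ t : K, M.mulVec ((sys A (a + T * j)).mulVec v) = t • c := by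
    intro a ha
    have h := (h1 a).resolve_right (not_not.2 ha)
    simp only [Tf, dif_pos h]
    exact h.choose_spec.2
  let TT : ℕ := T * ∏ a ∈ Finset.range T, Tf a
  have hTT : 1 ≤ TT := Nat.one_le_iff_ne_zero.2 (mul_ne_zero (by omega)
    (Finset.prod_ne_zero_iff.2 fun a _ => by have := hTf1 a; omega))
  have hTdvd : T ∣ TT := Dvd.intro _ rfl
  refine ⟨TT, hTT, fun a => ?_⟩
  -- the class of the shifted sequence
  set b := a + N * (TT - 1) with hb'
  by_cases hpos : PosDens {m : ℕ | m % T = (b % T) % T ∧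
      ∀ f ∈ I, val (shift A) (ev 0 1) m f = 0}
  · left
    have hbT : b % T < T := Nat.mod_lt _ (by omega)
    obtain ⟨c, N', hN'⟩ := hTf2 (b % T) hpos (b / T)
    refine ⟨c, N + b + T * N', fun m hm hma => ?_⟩
    obtain ⟨m, rfl⟩ : ∃ m', m = N + m' := ⟨m - N, by omega⟩
    have hmb : m % TT = b % TT := fin_class hTT hma
    have hmT : m % T = b % T := by
      rw [← Nat.mod_mod_of_dvd m hTdvd, hmb, Nat.mod_mod_of_dvd b hTdvd]
    have hdiv : (m / T) % Tf (b % T) = (b / T) % Tf (b % T) := by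
      have hd : T * Tf (b % T) ∣ TT :=
        Nat.mul_dvd_mul_left T (Finset.dvd_prod_of_mem Tf (Finset.mem_range.2 hbT))
      have h3 : m ≡ b [MOD T * Tf (b % T)] := Nat.ModEq.of_dvd hd hmb
      have h4 : T * (m / T) + m % T ≡ T * (b / T) + b % T [MOD T * Tf (b % T)] := by
        rw [Nat.div_add_mod, Nat.div_add_mod]
        exact h3
      rw [hmT] at h4
      have h5 := Nat.ModEq.add_right_cancel' _ h4
      exact Nat.ModEq.mul_left_cancel' (by omega) h5
    have hmeq : b % T + T * (m / T) = m := by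
      rw [← hmT]
      exact Nat.mod_add_div m T
    obtain ⟨t, ht⟩ := hN' (m / T) (by
      rw [ge_iff_le, Nat.le_div_iff_mul_le (by omega)]
      nlinarith) hdiv
    rw [hmeq] at ht
    refine ⟨s m * t, ?_⟩
    rw [hxs, ht, smul_smul]
  · right
    intro hS
    apply hpos
    refine Dens_mono ?_ (fin_shift_dens N hS)
    rintro m ⟨hm1, -, hm3⟩
    refine ⟨?_, ?_⟩
    · have hmb : m % TT = b % TT := fin_class hTT hm1
      rw [Nat.mod_mod, ← Nat.mod_mod_of_dvd m hTdvd, hmb, Nat.mod_mod_of_dvd b hTdvd]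
    · rw [hI]
      intro F hF
      obtain ⟨e, he⟩ := hhom F hF
      have h3 := hm3 F hF
      rw [hxs, fin_aeval_smul F he] at h3
      exact (mul_eq_zero.1 h3).resolve_left (pow_ne_zero e (hs m))

/-! ### the converse -/

theorem fin_prec_poly {K : Type} [Field K] (p : K[X]) : PRec fun m : ℕ => p.eval (m : K) := by
  by_cases hp : p = 0
  · refine ⟨0, fun _ => 1, fun h => one_ne_zero (congrFun h 0), fun m => ?_⟩
    simp [hp]
  · refine ⟨1, ![p.comp (X + 1), -p], fun h => hp ?_, fun m => ?_⟩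
    · have h1 := congrFun h 1
      simpa using h1
    · simp [Fin.sum_univ_two, eval_comp]
      ring

theorem fin_conv_line {K : Type} [Field K] [CharZero K] (q : Fin (n + 1) → K[X]) {T : ℕ}
    (hT : 1 ≤ T)
    (h : ∃ c : Fin (n + 1) → K, ∃ N : ℕ, ∀ m ≥ N, m % T = 0 % T →
      ∃ s : K, (fun j => (q j).eval (m : K)) = s • c) (i j : Fin (n + 1)) (a b : K) :
    (q i).eval a * (q j).eval b = (q j).eval a * (q i).eval b := by
  obtain ⟨c, N, hN⟩ := h
  have hinf : {m : ℕ | N ≤ m ∧ m % T = 0 % T}.Infinite := by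
    refine Set.infinite_of_injective_forall_mem (f := fun t : ℕ => T * (N + t)) ?_ ?_
    · intro t t' htt
      have := Nat.eq_of_mul_eq_mul_left (by omega) htt
      omega
    · intro t
      refine ⟨by nlinarith, by simp⟩
  have hrel : ∀ p p', q p * C (c p') = q p' * C (c p) := by
    intro p p'
    rw [← sub_eq_zero]
    refine Polynomial.eq_zero_of_infinite_isRoot _ ?_
    refine Set.Infinite.mono ?_ (hinf.image (f := fun m : ℕ => (m : K))
      (Nat.cast_injective.injOn))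
    rintro _ ⟨m, ⟨hm, hm2⟩, rfl⟩
    obtain ⟨s, hs⟩ := hN m hm hm2
    have h1 : ∀ p, (q p).eval (m : K) = s * c p := fun p => congrFun hs p
    show (q p * C (c p') - q p' * C (c p)).eval (m : K) = 0
    rw [eval_sub, eval_mul, eval_mul, eval_C, eval_C, h1, h1]
    ring
  by_cases hc : c = 0
  · have hq : ∀ p, q p = 0 := by
      intro p
      refine Polynomial.eq_zero_of_infinite_isRoot _ ?_
      refine Set.Infinite.mono ?_ (hinf.image (f := fun m : ℕ => (m : K))
        (Nat.cast_injective.injOn))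
      rintro _ ⟨m, ⟨hm, hm2⟩, rfl⟩
      obtain ⟨s, hs⟩ := hN m hm hm2
      show (q p).eval (m : K) = 0
      have h1 : (q p).eval (m : K) = s * c p := congrFun hs p
      rw [h1, hc]
      simp
    simp [hq]
  · obtain ⟨p0, hp0⟩ := Function.ne_iff.1 hc
    have hp0' : c p0 ≠ 0 := hp0
    have e1 := congrArg (Polynomial.eval a) (hrel i p0)
    have e2 := congrArg (Polynomial.eval b) (hrel j p0)
    have e3 := congrArg (Polynomial.eval a) (hrel j p0)
    have e4 := congrArg (Polynomial.eval b) (hrel i p0)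
    simp only [eval_mul, eval_C] at e1 e2 e3 e4
    apply mul_right_cancel₀ (mul_ne_zero hp0' hp0')
    calc (q i).eval a * (q j).eval b * (c p0 * c p0)
        = ((q i).eval a * c p0) * ((q j).eval b * c p0) := by ring
      _ = ((q p0).eval a * c i) * ((q p0).eval b * c j) := by rw [e1, e2]
      _ = ((q p0).eval a * c j) * ((q p0).eval b * c i) := by ring
      _ = ((q j).eval a * c p0) * ((q i).eval b * c p0) := by rw [e3, e4]
      _ = (q j).eval a * (q i).eval b * (c p0 * c p0) := by ring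

theorem fin_conv_seq [NumberField k] (σ : k →+* ℂ) (FF : Set (MvPolynomial (Fin (n + 1)) k))
    (h : ∀ (K : Type) [Field K] [NumberField K] [Algebra k K] (x : ℕ → Fin (n + 1) → K),
      (∀ j, PRec fun m => x m j) →
      (∃ N : ℕ, ∀ m ≥ N, ∀ F ∈ FF, MvPolynomial.aeval (x m) F = 0) →
      ∃ T : ℕ, 1 ≤ T ∧ ∀ a : ℕ, ∃ c : Fin (n + 1) → K, ∃ N : ℕ, ∀ m ≥ N,
        m % T = a % T → ∃ s : K, x m = s • c) : NoRatC σ FF := by
  by_contra hno
  obtain ⟨K, iK, iN, iA, q, hq, i, j, a, b, hab⟩ := exists_curK σ FF hno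
  apply hab
  obtain ⟨T, hT, hc⟩ := h K (fun m j => (q j).eval (m : K)) (fun j => fin_prec_poly (q j))
    ⟨0, fun m _ F hF => by
      have h1 := congrArg (evalRingHom (m : K)) (hq F hF)
      rw [map_zero, MvPolynomial.aeval_def, MvPolynomial.hom_eval₂] at h1
      rw [MvPolynomial.aeval_def]
      have h2 : (evalRingHom (m : K)).comp (algebraMap k K[X]) = algebraMap k K := by
        ext z
        simp [Polynomial.algebraMap_apply]
      rw [h2] at h1
      exact h1⟩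
  exact fin_conv_line q hT (hc 0) i j a b

theorem fin_conv_dens [NumberField k] (σ : k →+* ℂ) (FF : Set (MvPolynomial (Fin (n + 1)) k))
    (h : ∀ (K : Type) [Field K] [NumberField K] [Algebra k K] (x : ℕ → Fin (n + 1) → K),
      (∀ j, PRec fun m => x m j) →
      ∃ T : ℕ, 1 ≤ T ∧ ∀ a : ℕ, (∃ c : Fin (n + 1) → K, ∃ N : ℕ, ∀ m ≥ N,
        m % T = a % T → ∃ s : K, x m = s • c) ∨
      ¬ PosDens {m : ℕ | m % T = a % T ∧ x m ≠ 0 ∧
        ∀ F ∈ FF, MvPolynomial.aeval (x m) F = 0}) : NoRatC σ FF := by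
  classical
  by_contra hno
  obtain ⟨K, iK, iN, iA, q, hq, i, j, a, b, hab⟩ := exists_curK σ FF hno
  apply hab
  have hX : ∀ m : ℕ, ∀ F ∈ FF, MvPolynomial.aeval (fun j => (q j).eval (m : K)) F = 0 := by
    intro m F hF
    have h1 := congrArg (evalRingHom (m : K)) (hq F hF)
    rw [map_zero, MvPolynomial.aeval_def, MvPolynomial.hom_eval₂] at h1
    rw [MvPolynomial.aeval_def]
    have h2 : (evalRingHom (m : K)).comp (algebraMap k K[X]) = algebraMap k K := by
      ext z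
      simp [Polynomial.algebraMap_apply]
    rw [h2] at h1
    exact h1
  obtain ⟨T, hT, hc⟩ := h K (fun m j => (q j).eval (m : K)) (fun j => fin_prec_poly (q j))
  rcases hc 0 with h0 | h0
  · exact fin_conv_line q hT h0 i j a b
  · exfalso
    by_cases hq0 : q = 0
    · apply hab
      simp [hq0]
    · obtain ⟨p, hp⟩ := Function.ne_iff.1 hq0
      have hp' : q p ≠ 0 := hp
      have hfin : {m : ℕ | (q p).eval (m : K) = 0}.Finite := by
        have := ((q p).roots.toFinset.finite_toSet).preimage (f := fun m : ℕ => (m : K))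
          (Nat.cast_injective.injOn)
        refine this.subset fun m hm => ?_
        simp only [Set.mem_preimage, Finset.mem_coe, Multiset.mem_toFinset]
        exact (mem_roots hp').2 hm
      obtain ⟨N, hN⟩ := hfin.bddAbove
      apply h0
      refine Dens_mono ?_ (Dens_class hT 0 (N + 1))
      rintro m ⟨hm1, hm2⟩
      refine ⟨hm1, fun hm3 => ?_, hX m⟩
      have := hN (show m ∈ {m : ℕ | (q p).eval (m : K) = 0} from congrFun hm3 p)
      omega

end

end Pool.Agent.N419.HQ
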