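import Pool.Agent.N419.HQ.Def

/-!
Project HQ: P-recursive sequences of rational points on varieties without rational curves.
Statements of the tasks.
-/

set_option autoImplicit false

namespace Pool.Agent.N419.HQ

open Polynomial Matrix

/-- the polynomials which vanish at `(m, U(m))` for all large `m` -/
def evI {F : Type} [Field F] {r : ℕ} (A : Matrix (Fin r) (Fin r) F[X]) :
    Ideal (MvPolynomial (Fin r × Fin r) F[X]) where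
  carrier := {f | ∃ N : ℕ, ∀ m ≥ N, ev (m : F) (sys A m) f = 0}
  zero_mem' := ⟨0, fun _ _ => map_zero _⟩
  add_mem' := by
    rintro f g ⟨N, hN⟩ ⟨N', hN'⟩
    exact ⟨max N N', fun m hm => by
      rw [map_add, hN m (le_trans (le_max_left _ _) hm), hN' m (le_trans (le_max_right _ _) hm),
        add_zero]⟩
  smul_mem' := by
    rintro c f ⟨N, hN⟩
    exact ⟨N, fun m hm => by rw [smul_eq_mul, map_mul, hN m hm, mul_zero]⟩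

/-- positive upper Banach density -/
def PosDens (S : Set ℕ) : Prop :=
  ∃ δ : ℝ, 0 < δ ∧ ∀ L : ℕ, ∃ a : ℕ, ∃ l ≥ L, δ * l ≤ ((S ∩ Set.Ico a (a + l)).ncard : ℝ)

/-- a sequence is P-recursive: it satisfies a nontrivial linear recurrence with polynomial
coefficients -/
def PRec {F : Type} [Field F] (s : ℕ → F) : Prop :=
  ∃ (d : ℕ) (p : Fin (d + 1) → F[X]), p ≠ 0 ∧
    ∀ m : ℕ, ∑ i : Fin (d + 1), (p i).eval (m : F) * s (m + i) = 0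

/-! ### noetherian rings with an endomorphism -/

/-- T1 -/
def S_run : Prop := ∀ (R F : Type) [CommRing R] [IsNoetherianRing R] [Field F] (τ : R →+* R)
  (ε : R →+* F) (f : R), ∃ k : ℕ, ∀ a : ℕ, (∀ i < k, val τ ε (a + i) f = 0) →
    ∀ m ≥ a, val τ ε m f = 0

/-- T1 -/
def S_ap : Prop := ∀ (R F : Type) [CommRing R] [IsNoetherianRing R] [Field F] (τ : R →+* R)
  (ε : R →+* F) (Λ : Type) [Finite Λ] (c : Λ → Ideal R),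
  (∃ N : ℕ, ∀ m ≥ N, ∃ l, ∀ f ∈ c l, val τ ε m f = 0) →
  ∃ T : ℕ, 1 ≤ T ∧ ∀ a : ℕ, ∃ l, ∃ N : ℕ, ∀ m ≥ N, m % T = a % T →
    ∀ f ∈ c l, val τ ε m f = 0

/-- T2 -/
def S_dens : Prop := ∀ (R F : Type) [CommRing R] [IsNoetherianRing R] [Field F] (τ : R →+* R)
  (ε : R →+* F) (c : Ideal R), ∃ T : ℕ, 1 ≤ T ∧ ∀ a : ℕ,
    (∃ N : ℕ, ∀ m ≥ N, m % T = a % T → ∀ f ∈ c, val τ ε m f = 0) ∨
    ¬ PosDens {m : ℕ | m % T = a % T ∧ ∀ f ∈ c, val τ ε m f = 0}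

/-! ### algebraic functions -/

/-- T3 -/
def S_null : Prop := ∀ (ι : Type) [Finite ι] (I : Ideal (MvPolynomial ι ℂ[X]))
  (d : MvPolynomial ι ℂ[X]),
  (∀ h : ℂ[X], h ≠ 0 → ∀ k : ℕ, MvPolynomial.C h * d ^ k ∉ I) →
  ∃ (E : Type) (_ : Field E) (_ : Algebra ℂ[X] E),
    Function.Injective (algebraMap ℂ[X] E) ∧ Algebra.IsAlgebraic ℂ[X] E ∧
    ∃ y : ι → E, (∀ f ∈ I, MvPolynomial.aeval y f = 0) ∧ MvPolynomial.aeval y d ≠ 0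

/-- T4 -/
def S_spec : Prop := ∀ (E : Type) [Field E] [Algebra ℂ[X] E],
  Function.Injective (algebraMap ℂ[X] E) → Algebra.IsAlgebraic ℂ[X] E →
  ∀ (ι : Type) [Finite ι] (y : ι → E), ∃ N : ℕ, ∀ m : ℕ, N ≤ m → ∃ w : ι → ℂ,
    ∀ f : MvPolynomial ι ℂ[X], MvPolynomial.aeval y f = 0 →
      MvPolynomial.eval₂ (evalRingHom (m : ℂ)) w f = 0

/-- T5 -/
def S_embed : Prop := ∀ (E : Type) [Field E] [Algebra ℂ[X] E],
  Function.Injective (algebraMap ℂ[X] E) → Algebra.IsAlgebraic ℂ[X] E → Nonempty (E →+* ℂ)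

/-- T6 -/
def S_rel : Prop := ∀ (n B : ℕ) (E : Type) [Field E] [Algebra ℂ[X] E],
  Function.Injective (algebraMap ℂ[X] E) → Algebra.IsAlgebraic ℂ[X] E →
  ∀ (c : Fin B → Fin (n + 1) → E) (p q : Fin (n + 1)), ∃ P : ℂ[X][X], P ≠ 0 ∧
    ∀ (m : ℕ) (x : Fin (n + 1) → ℂ), x p ≠ 0 →
      (∃ i, ∀ (d : ℕ) (f : MvPolynomial (Fin (n + 1)) ℂ[X]), f.IsHomogeneous d →
        MvPolynomial.aeval (c i) f = 0 → MvPolynomial.eval₂ (evalRingHom (m : ℂ)) x f = 0) →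
      (P.map (evalRingHom (m : ℂ))).eval (x q / x p) = 0

/-- T7 -/
def S_bd : Prop := ∀ (n B : ℕ) (E : Type) [Field E] [Algebra ℂ[X] E],
  Function.Injective (algebraMap ℂ[X] E) → Algebra.IsAlgebraic ℂ[X] E →
  ∀ (c : Fin B → Fin (n + 1) → E) (x : ℕ → Fin (n + 1) → ℂ) (ρ : Fin (n + 1) → ℂ[X])
    (S : Set ℕ), S.Infinite → (∀ m ∈ S, x m ≠ 0) →
    (∀ m ∈ S, ∀ p q, x m p * (ρ q).eval (m : ℂ) = x m q * (ρ p).eval (m : ℂ)) →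
    (∀ m ∈ S, ∃ i, ∀ (d : ℕ) (f : MvPolynomial (Fin (n + 1)) ℂ[X]), f.IsHomogeneous d →
        MvPolynomial.aeval (c i) f = 0 →
        MvPolynomial.eval₂ (evalRingHom (m : ℂ)) (x m) f = 0) →
    ∃ i, c i ≠ 0 ∧ ∀ p q, c i p * algebraMap ℂ[X] E (ρ q) = c i q * algebraMap ℂ[X] E (ρ p)

/-- T8 -/
def S_grp : Prop := ∀ (F : Type) [Field F] (r : ℕ) (A : Matrix (Fin r) (Fin r) F[X]),
  (∀ m : ℕ, A.det.eval (m : F) ≠ 0) →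
  ∃ G : Subgroup (GL (Fin r) F),
    (∀ h ∈ G, ∀ f ∈ evI A, rmul (h : Matrix (Fin r) (Fin r) F) f ∈ evI A) ∧
    ∀ (m : ℕ) (W : GL (Fin r) F), (∀ f ∈ evI A, ev (m : F) (W : Matrix (Fin r) (Fin r) F) f = 0) →
      ∃ h ∈ G, sys A m = (W : Matrix (Fin r) (Fin r) F) * (h : Matrix (Fin r) (Fin r) F)

/-! ### number fields -/

/-- T9 -/
def S_desc : Prop := ∀ (K : Type) [Field K] (τ : K →+* ℂ) (S : Set ℕ) (y : ℕ → K),
  (∃ P : ℂ[X][X], P ≠ 0 ∧ ∀ m ∈ S, (P.map (evalRingHom (m : ℂ))).eval (τ (y m)) = 0) →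
  ∃ P : K[X][X], P ≠ 0 ∧ ∀ m ∈ S, (P.map (evalRingHom (m : K))).eval (y m) = 0

/-- T10 -/
def S_hit : Prop := ∀ (K : Type) [Field K] [NumberField K] (ι : Type) [Finite ι]
  (P : ι → K[X][X]), (∀ i, P i ≠ 0) →
  ∃ L : Finset (K[X] × K[X]), ∀ k B : ℕ, ∃ t ≥ B, ∀ m : ℕ, t ≤ m → m < t + k →
    ∀ i (y : K), ((P i).map (evalRingHom (m : K))).eval y = 0 →
      ∃ c ∈ L, c.2.eval (m : K) ≠ 0 ∧ c.2.eval (m : K) * y = c.1.eval (m : K)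

/-- T11 -/
def S_runs : Prop := ∀ (K : Type) [Field K] [NumberField K] (n : ℕ)
  (FF : Set (MvPolynomial (Fin (n + 1)) K)) (G : MvPolynomial (Fin (n + 1)) K),
  (∀ F ∈ FF, ∃ e, F.IsHomogeneous e) → ∀ x : ℕ → Fin (n + 1) → K,
  (∃ N : ℕ, ∀ m ≥ N, ∀ F ∈ FF, MvPolynomial.eval (x m) F = 0) →
  (∀ p q, ∃ P : K[X][X], P ≠ 0 ∧ ∃ N : ℕ, ∀ m ≥ N, MvPolynomial.eval (x m) G ≠ 0 →
    x m p ≠ 0 → (P.map (evalRingHom (m : K))).eval (x m q / x m p) = 0) →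
  ∃ (s : ℕ) (ρ : Fin s → Fin (n + 1) → K[X]), (∀ l, ρ l ≠ 0) ∧
    (∀ l, ∀ F ∈ FF, MvPolynomial.aeval (ρ l) F = 0) ∧
    ∀ k B : ℕ, ∃ t ≥ B, ∀ m : ℕ, t ≤ m → m < t + k →
      MvPolynomial.eval (x m) G = 0 ∨ x m = 0 ∨ ∃ l, ∃ c : K, x m = fun j => c * (ρ l j).eval (m : K)

/-- T12 -/
def S_line : Prop := ∀ (F : Type) [Field F] (r n : ℕ) (A : Matrix (Fin r) (Fin r) F[X])
  (M : Matrix (Fin (n + 1)) (Fin r) F) (v : Fin r → F) (G : MvPolynomial (Fin (n + 1)) F)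
  (s : ℕ) (ρ : Fin s → Fin (n + 1) → F[X]), (∀ l, ρ l ≠ 0) → CharZero F →
  (∀ k B : ℕ, ∃ t ≥ B, ∀ m : ℕ, t ≤ m → m < t + k →
    MvPolynomial.eval (M.mulVec ((sys A m).mulVec v)) G = 0 ∨ M.mulVec ((sys A m).mulVec v) = 0 ∨
      ∃ l, ∃ c : F, M.mulVec ((sys A m).mulVec v) = fun j => c * (ρ l j).eval (m : F)) →
  ∃ T : ℕ, 1 ≤ T ∧ ∀ a : ℕ,
    (∃ N : ℕ, ∀ m ≥ N, m % T = a % T →
      MvPolynomial.eval (M.mulVec ((sys A m).mulVec v)) G = 0) ∨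
    (∃ N : ℕ, ∀ m ≥ N, m % T = a % T → M.mulVec ((sys A m).mulVec v) = 0) ∨
    ∃ l, ∃ N : ℕ, ∀ m ≥ N, m % T = a % T →
      ∃ c : F, M.mulVec ((sys A m).mulVec v) = fun j => c * (ρ l j).eval (m : F)

/-- T13 -/
def S_prec : Prop := ∀ (F : Type) [Field F] [CharZero F] (n : ℕ) (x : ℕ → Fin n → F),
  (∀ j, PRec fun m => x m j) →
  ∃ (N r : ℕ) (A : Matrix (Fin r) (Fin r) F[X]) (M : Matrix (Fin n) (Fin r) F) (v : Fin r → F)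
    (s : ℕ → F), (∀ m : ℕ, A.det.eval (m : F) ≠ 0) ∧ (∀ m, s m ≠ 0) ∧
    ∀ m, x (N + m) = s m • M.mulVec ((sys A m).mulVec v)

/-- T14 -/
def S_sys : Prop := ∀ (F : Type) [Field F] [CharZero F] (r : ℕ) (D : F[X])
  (A : Matrix (Fin r) (Fin r) F[X]) (u : ℕ → Fin r → F), D ≠ 0 → A.det ≠ 0 →
  (∀ m : ℕ, D.eval (m : F) • u (m + 1) = (A.map fun p => p.eval (m : F)).mulVec (u m)) →
  ∃ (N : ℕ) (A' : Matrix (Fin r) (Fin r) F[X]) (v : Fin r → F) (s : ℕ → F),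
    (∀ m : ℕ, A'.det.eval (m : F) ≠ 0) ∧ (∀ m, s m ≠ 0) ∧
    ∀ m, u (N + m) = s m • (sys A' m).mulVec v

/-- T14 -/
def S_sub : Prop := ∀ (F : Type) [Field F] (r : ℕ) (A : Matrix (Fin r) (Fin r) F[X]),
  (∀ m : ℕ, A.det.eval (m : F) ≠ 0) → ∀ (T a : ℕ), 1 ≤ T →
  ∃ A' : Matrix (Fin r) (Fin r) F[X], (∀ m : ℕ, A'.det.eval (m : F) ≠ 0) ∧
    ∀ m, sys A (a + T * m) = sys A' m * sys A a

/-! ### the main steps -/

/-- the orbits of matrix groups of size `r` on the zero set of `FF` consist, outside of `G = 0`,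
of at most `B` points, over all extensions of `ℂ` that can be embedded in `ℂ` -/
def OrbB {n : ℕ} (FF : Set (MvPolynomial (Fin (n + 1)) ℂ)) (G : MvPolynomial (Fin (n + 1)) ℂ)
    (r B : ℕ) : Prop :=
  ∀ (E : Type) [Field E] [Algebra ℂ E] (_ : E →+* ℂ) (H : Type) [Group H]
    (ρ : H →* GL (Fin r) E) (M : Matrix (Fin (n + 1)) (Fin r) E) (v : Fin r → E),
    (∀ h, ∀ F ∈ FF, MvPolynomial.aeval
      (M.mulVec ((ρ h : Matrix (Fin r) (Fin r) E).mulVec v)) F = 0) →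
    ∃ c : Fin B → Fin (n + 1) → E, ∀ h,
      MvPolynomial.aeval (M.mulVec ((ρ h : Matrix (Fin r) (Fin r) E).mulVec v)) G = 0 ∨
      ∃ i, ∃ s : E, M.mulVec ((ρ h : Matrix (Fin r) (Fin r) E).mulVec v) = s • c i

/-- T0 -/
def S_core : Prop := ∀ (n r B : ℕ) (FF : Set (MvPolynomial (Fin (n + 1)) ℂ))
  (G : MvPolynomial (Fin (n + 1)) ℂ), OrbB FF G r B →
  ∀ A : Matrix (Fin r) (Fin r) ℂ[X], (∀ m : ℕ, A.det.eval (m : ℂ) ≠ 0) →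
  ∀ (M : Matrix (Fin (n + 1)) (Fin r) ℂ) (v : Fin r → ℂ),
  (∃ N : ℕ, ∀ m ≥ N, ∀ F ∈ FF, MvPolynomial.eval (M.mulVec ((sys A m).mulVec v)) F = 0) →
  ∃ (E : Type) (_ : Field E) (_ : Algebra ℂ[X] E),
    Function.Injective (algebraMap ℂ[X] E) ∧ Algebra.IsAlgebraic ℂ[X] E ∧
    ∃ c : Fin B → Fin (n + 1) → E, ∃ N : ℕ, ∀ m ≥ N,
      MvPolynomial.eval (M.mulVec ((sys A m).mulVec v)) G = 0 ∨
      ∃ i, ∀ (d : ℕ) (f : MvPolynomial (Fin (n + 1)) ℂ[X]), f.IsHomogeneous d →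
        MvPolynomial.aeval (c i) f = 0 →
        MvPolynomial.eval₂ (evalRingHom (m : ℂ)) (M.mulVec ((sys A m).mulVec v)) f = 0

end Pool.Agent.N419.HQ
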